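import Pool.Agent.H402.FF.Stm

/-!
# Project FF (helper402), task ZB: tensors with diagonal interior and slice rank at most `n`
-/

set_option autoImplicit false

open Finset

namespace Pool.Agent.H183.FF_ZB

open Pool.Agent.H402.FF

universe u

section orders

variable {n : ℕ}

/-- `0` first, then ascending -/
def up (n : ℕ) (x : Fin (n + 1)) : ℕ := x.val

/-- `0` first, then descending -/
def dn (n : ℕ) (x : Fin (n + 1)) : ℕ := if x = 0 then 0 else n + 1 - x.val

/-- orders with `0` first -/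
def OK (ρ : Fin (n + 1) → ℕ) : Prop := Function.Injective ρ ∧ ∀ i : Fin n, ρ 0 < ρ i.succ

theorem up_zero : up n 0 = 0 := rfl

theorem up_succ (i : Fin n) : up n i.succ = i.val + 1 := by
  unfold up
  rw [Fin.val_succ]

theorem dn_zero : dn n 0 = 0 := if_pos rfl

theorem dn_succ (i : Fin n) : dn n i.succ = n - i.val := by
  unfold dn
  rw [if_neg (Fin.succ_ne_zero i), Fin.val_succ, Nat.add_sub_add_right]

theorem ok_up : OK (up n) := by
  refine ⟨fun x y h => Fin.ext h, fun i => ?_⟩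
  rw [up_zero, up_succ]
  omega

theorem ok_dn : OK (dn n) := by
  refine ⟨fun x y h => ?_, fun i => ?_⟩
  · rcases Fin.eq_zero_or_eq_succ x with rfl | ⟨i, rfl⟩ <;>
      rcases Fin.eq_zero_or_eq_succ y with rfl | ⟨j, rfl⟩
    · rfl
    · rw [dn_zero, dn_succ] at h
      have := j.isLt
      omega
    · rw [dn_zero, dn_succ] at h
      have := i.isLt
      omega
    · rw [dn_succ, dn_succ] at h
      have h1 := i.isLt
      have h2 := j.isLt
      have h3 : i = j := Fin.ext (by omega)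
      rw [h3]
  · rw [dn_zero, dn_succ]
    have := i.isLt
    omega

theorem opp {i j : Fin n} (h1 : up n i.succ ≤ up n j.succ) (h2 : dn n i.succ ≤ dn n j.succ) :
    i = j := by
  rw [up_succ, up_succ] at h1
  rw [dn_succ, dn_succ] at h2
  have h3 := i.isLt
  have h4 := j.isLt
  exact Fin.ext (by omega)

/-- `i.succ` is last -/
theorem ok_last (i : Fin n) : OK (fun x : Fin (n + 1) => if x = i.succ then n + 1 else x.val) := by
  refine ⟨fun x y h => ?_, fun j => ?_⟩
  · simp only at h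
    have h1 := x.isLt
    have h2 := y.isLt
    split_ifs at h with h3 h4 h4
    · rw [h3, h4]
    · omega
    · omega
    · exact Fin.ext h
  · simp only
    rw [if_neg (Fin.succ_ne_zero i).symm]
    split_ifs with h
    · simp
    · simp

end orders

section field

variable {F : Type u} [Field F] {n : ℕ}

/-- unit vectors -/
def E (F : Type u) [Field F] {n : ℕ} (i : Fin n) : Fin (n + 1) → F :=
  fun x => if x = i.succ then 1 else 0

theorem E_zero (i : Fin n) : E F i 0 = 0 := if_neg (Fin.succ_ne_zero i).symm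

theorem E_succ (i j : Fin n) : E F i j.succ = if j = i then 1 else 0 := by
  unfold E
  by_cases h : j = i
  · rw [h, if_pos rfl, if_pos rfl]
  · rw [if_neg h, if_neg (fun h' => h (Fin.succ_injective _ h'))]

/-- The structure of one of the subspaces. -/
theorem sub_struct (U : Submodule F (Fin (n + 1) → F)) (S : Fin n → Prop)
    (h0 : ∃ u ∈ U, u 0 ≠ 0) (hS : ∀ ρ : Fin (n + 1) → ℕ, OK ρ → ∀ i : Fin n, S i → Ld ρ U i.succ) :
    (∀ i, S i → E F i ∈ U) ∧ ∃ u ∈ U, u 0 = 1 ∧ ∀ i : Fin n, S i → u i.succ = 0 := by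
  classical
  have hE : ∀ i, S i → E F i ∈ U := by
    intro i hi
    obtain ⟨u, hu, hu1, hu2⟩ := hS _ (ok_last i) i hi
    have h1 : ∀ b, b ≠ i.succ → u b = 0 := by
      intro b hb
      apply hu2
      simp only
      rw [if_neg hb]
      simpa using b.isLt
    have h2 : E F i = (u i.succ)⁻¹ • u := by
      funext x
      rw [Pi.smul_apply, smul_eq_mul]
      by_cases hx : x = i.succ
      · rw [hx, inv_mul_cancel₀ hu1]
        exact if_pos rfl
      · rw [h1 x hx, mul_zero]
        exact if_neg hx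
    rw [h2]
    exact U.smul_mem _ hu
  refine ⟨hE, ?_⟩
  obtain ⟨u, hu, hu0⟩ := h0
  set u1 : Fin (n + 1) → F := (u 0)⁻¹ • u with hu1
  have h1 : u1 ∈ U := U.smul_mem _ hu
  have h10 : u1 0 = 1 := by
    rw [hu1, Pi.smul_apply, smul_eq_mul, inv_mul_cancel₀ hu0]
  refine ⟨u1 - ∑ j, (if S j then u1 j.succ else 0) • E F j, ?_, ?_, ?_⟩
  · refine U.sub_mem h1 (U.sum_mem fun j _ => ?_)
    split_ifs with h
    · exact U.smul_mem _ (hE j h)
    · rw [zero_smul]; exact U.zero_mem
  · rw [Pi.sub_apply, Finset.sum_apply, h10, Finset.sum_eq_zero, sub_zero]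
    intro j _
    rw [Pi.smul_apply, E_zero, smul_zero]
  · intro i hi
    rw [Pi.sub_apply, Finset.sum_apply, Finset.sum_eq_single i]
    · rw [Pi.smul_apply, E_succ, if_pos rfl, if_pos hi, smul_eq_mul, mul_one, sub_self]
    · intro j _ hj
      rw [Pi.smul_apply, E_succ, if_neg hj.symm, smul_zero]
    · intro h
      exact absurd (mem_univ _) h

/-- the common kernel of `p` functionals -/
theorem exists_ker {m p : ℕ} (a : Fin p → Fin m → F) :
    ∃ U : Submodule F (Fin m → F), (∀ u ∈ U, ∀ i, ∑ x, u x * a i x = 0) ∧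
      m ≤ Module.finrank F U + p := by
  let L : (Fin m → F) →ₗ[F] (Fin p → F) :=
    { toFun := fun u i => ∑ x, u x * a i x
      map_add' := fun u v => by
        funext i
        simp only [Pi.add_apply, add_mul, sum_add_distrib]
      map_smul' := fun c u => by
        funext i
        simp only [Pi.smul_apply, smul_eq_mul, RingHom.id_apply, mul_assoc, mul_sum] }
  refine ⟨LinearMap.ker L, ?_, ?_⟩
  · intro u hu i
    rw [LinearMap.mem_ker] at hu
    exact congrFun hu i
  · have h1 := LinearMap.finrank_range_add_finrank_ker L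
    have h2 : Module.finrank F (LinearMap.range L) ≤ p := by
      refine (Submodule.finrank_le _).trans ?_
      rw [Module.finrank_fin_fun]
    rw [Module.finrank_fin_fun] at h1
    omega

theorem z1 {m p : ℕ} (a : Fin p → Fin m → F) (G : Fin p → F) (u : Fin m → F)
    (hu : ∀ i, ∑ x, u x * a i x = 0) : ∑ x, u x * ∑ i, a i x * G i = 0 := by
  have h1 : ∑ x, u x * ∑ i, a i x * G i = ∑ i, (∑ x, u x * a i x) * G i := by
    simp only [mul_sum, sum_mul]
    rw [sum_comm]
    exact sum_congr rfl fun i _ => sum_congr rfl fun x _ => by ring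
  rw [h1]
  exact sum_eq_zero fun i _ => by rw [hu i, zero_mul]

/-- the form vanishes on the common kernels -/
theorem form_zero {m p q r : ℕ} {T : Fin m → Fin m → Fin m → F} {a : Fin p → Fin m → F}
    {g : Fin p → Fin m → Fin m → F} {b : Fin q → Fin m → F} {h : Fin q → Fin m → Fin m → F}
    {c : Fin r → Fin m → F} {e : Fin r → Fin m → Fin m → F}
    (hT : ∀ x y z, T x y z = ∑ i, a i x * g i y z + ∑ i, b i y * h i x z + ∑ i, c i z * e i x y)
    {u v w : Fin m → F} (hu : ∀ i, ∑ x, u x * a i x = 0) (hv : ∀ i, ∑ x, v x * b i x = 0)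
    (hw : ∀ i, ∑ x, w x * c i x = 0) :
    ∑ x, ∑ y, ∑ z, u x * v y * w z * T x y z = 0 := by
  have h1 : ∑ x, ∑ y, ∑ z, u x * v y * w z * (∑ i, a i x * g i y z) = 0 := by
    rw [sum_comm]
    refine sum_eq_zero fun y _ => ?_
    rw [sum_comm]
    refine sum_eq_zero fun z _ => ?_
    have h2 : ∑ x, u x * v y * w z * (∑ i, a i x * g i y z) =
        (v y * w z) * ∑ x, u x * ∑ i, a i x * g i y z := by
      rw [mul_sum]
      exact sum_congr rfl fun x _ => by ring
    rw [h2, z1 a (fun i => g i y z) u hu, mul_zero]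
  have h2 : ∑ x, ∑ y, ∑ z, u x * v y * w z * (∑ i, b i y * h i x z) = 0 := by
    refine sum_eq_zero fun x _ => ?_
    rw [sum_comm]
    refine sum_eq_zero fun z _ => ?_
    have h3 : ∑ y, u x * v y * w z * (∑ i, b i y * h i x z) =
        (u x * w z) * ∑ y, v y * ∑ i, b i y * h i x z := by
      rw [mul_sum]
      exact sum_congr rfl fun y _ => by ring
    rw [h3, z1 b (fun i => h i x z) v hv, mul_zero]
  have h3 : ∑ x, ∑ y, ∑ z, u x * v y * w z * (∑ i, c i z * e i x y) = 0 := by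
    refine sum_eq_zero fun x _ => sum_eq_zero fun y _ => ?_
    have h4 : ∑ z, u x * v y * w z * (∑ i, c i z * e i x y) =
        (u x * v y) * ∑ z, w z * ∑ i, c i z * e i x y := by
      rw [mul_sum]
      exact sum_congr rfl fun z _ => by ring
    rw [h4, z1 c (fun i => e i x y) w hw, mul_zero]
  have h4 : ∑ x, ∑ y, ∑ z, u x * v y * w z * T x y z =
      ∑ x, ∑ y, ∑ z, u x * v y * w z * (∑ i, a i x * g i y z) +
      ∑ x, ∑ y, ∑ z, u x * v y * w z * (∑ i, b i y * h i x z) +
      ∑ x, ∑ y, ∑ z, u x * v y * w z * (∑ i, c i z * e i x y) := by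
    simp only [← sum_add_distrib]
    exact sum_congr rfl fun x _ => sum_congr rfl fun y _ => sum_congr rfl fun z _ => by
      rw [hT]; ring
  rw [h4, h1, h2, h3, add_zero, add_zero]

/-- the value of the form -/
theorem form_eq (N : Fin (n + 1) → Fin (n + 1) → Fin (n + 1) → F) (κ : Fin n → F)
    (hN : ∀ i j k : Fin n, N i.succ j.succ k.succ = if i = j ∧ j = k then κ i else 0)
    (u v w : Fin (n + 1) → F) :
    ∑ a, ∑ b, ∑ c, u a * v b * w c * N a b c =
      u 0 * v 0 * w 0 * N 0 0 0 +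
      u 0 * v 0 * (∑ k : Fin n, w k.succ * N 0 0 k.succ) +
      u 0 * w 0 * (∑ j : Fin n, v j.succ * N 0 j.succ 0) +
      u 0 * (∑ j : Fin n, ∑ k : Fin n, v j.succ * w k.succ * N 0 j.succ k.succ) +
      v 0 * w 0 * (∑ i : Fin n, u i.succ * N i.succ 0 0) +
      v 0 * (∑ i : Fin n, ∑ k : Fin n, u i.succ * w k.succ * N i.succ 0 k.succ) +
      w 0 * (∑ i : Fin n, ∑ j : Fin n, u i.succ * v j.succ * N i.succ j.succ 0) +
      ∑ i : Fin n, u i.succ * v i.succ * w i.succ * κ i := by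
  have h1 : ∀ a, ∑ b, ∑ c, u a * v b * w c * N a b c = u a * (v 0 * w 0 * N a 0 0 +
      v 0 * (∑ k : Fin n, w k.succ * N a 0 k.succ) +
      w 0 * (∑ j : Fin n, v j.succ * N a j.succ 0) +
      ∑ j : Fin n, ∑ k : Fin n, v j.succ * w k.succ * N a j.succ k.succ) := by
    intro a
    have h2 : ∀ b, ∑ c, u a * v b * w c * N a b c = u a * v b * w 0 * N a b 0 +
        u a * v b * ∑ k : Fin n, w k.succ * N a b k.succ := by
      intro b
      rw [Fin.sum_univ_succ, mul_sum]
      congr 1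
      exact sum_congr rfl fun k _ => by ring
    rw [Fin.sum_univ_succ, h2]
    have h3 : ∑ j : Fin n, ∑ c, u a * v j.succ * w c * N a j.succ c =
        u a * (w 0 * (∑ j : Fin n, v j.succ * N a j.succ 0)) +
        u a * ∑ j : Fin n, ∑ k : Fin n, v j.succ * w k.succ * N a j.succ k.succ := by
      rw [mul_sum, mul_sum, mul_sum, ← sum_add_distrib]
      refine sum_congr rfl fun j _ => ?_
      rw [h2]
      have h4 : ∑ k : Fin n, v j.succ * w k.succ * N a j.succ k.succ =
          v j.succ * ∑ k : Fin n, w k.succ * N a j.succ k.succ := by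
        rw [mul_sum]
        exact sum_congr rfl fun k _ => by ring
      rw [h4]
      ring
    rw [h3]
    ring
  rw [Fin.sum_univ_succ, h1]
  have h5 : ∑ i : Fin n, ∑ b, ∑ c, u i.succ * v b * w c * N i.succ b c =
      v 0 * w 0 * (∑ i : Fin n, u i.succ * N i.succ 0 0) +
      v 0 * (∑ i : Fin n, ∑ k : Fin n, u i.succ * w k.succ * N i.succ 0 k.succ) +
      w 0 * (∑ i : Fin n, ∑ j : Fin n, u i.succ * v j.succ * N i.succ j.succ 0) +
      ∑ i : Fin n, u i.succ * v i.succ * w i.succ * κ i := by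
    rw [mul_sum, mul_sum, mul_sum, ← sum_add_distrib, ← sum_add_distrib, ← sum_add_distrib]
    refine sum_congr rfl fun i _ => ?_
    rw [h1]
    have h6 : ∑ j : Fin n, ∑ k : Fin n, v j.succ * w k.succ * N i.succ j.succ k.succ =
        v i.succ * w i.succ * κ i := by
      rw [sum_eq_single i]
      · rw [sum_eq_single i]
        · rw [hN, if_pos ⟨rfl, rfl⟩]
        · intro k _ hk
          rw [hN, if_neg (fun h => hk h.2.symm), mul_zero]
        · intro h
          exact absurd (mem_univ _) h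
      · intro j _ hj
        refine sum_eq_zero fun k _ => ?_
        rw [hN, if_neg (fun h => hj h.1.symm), mul_zero]
      · intro h
        exact absurd (mem_univ _) h
    have h7 : ∑ k : Fin n, u i.succ * w k.succ * N i.succ 0 k.succ =
        u i.succ * ∑ k : Fin n, w k.succ * N i.succ 0 k.succ := by
      rw [mul_sum]
      exact sum_congr rfl fun k _ => by ring
    have h8 : ∑ j : Fin n, u i.succ * v j.succ * N i.succ j.succ 0 =
        u i.succ * ∑ j : Fin n, v j.succ * N i.succ j.succ 0 := by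
      rw [mul_sum]
      exact sum_congr rfl fun k _ => by ring
    rw [h6, h7, h8]
    ring
  rw [h5]
  ring

/-- sums with a unit vector -/
theorem sum_E (i : Fin n) (f : Fin n → F) : ∑ j : Fin n, E F i j.succ * f j = f i := by
  rw [sum_eq_single i]
  · rw [E_succ, if_pos rfl, one_mul]
  · intro j _ hj
    rw [E_succ, if_neg hj, zero_mul]
  · intro h
    exact absurd (mem_univ _) h

/-- double sums with two unit vectors -/
theorem sum_EE (i j : Fin n) (f : Fin n → Fin n → F) :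
    ∑ a : Fin n, ∑ b : Fin n, E F i a.succ * E F j b.succ * f a b = f i j := by
  have h1 : ∀ a : Fin n, ∑ b : Fin n, E F i a.succ * E F j b.succ * f a b =
      E F i a.succ * f a j := by
    intro a
    rw [← sum_E j (fun b => f a b), mul_sum]
    exact sum_congr rfl fun b _ => by ring
  rw [sum_congr rfl fun a _ => h1 a]
  exact sum_E i (fun a => f a j)

theorem sum_Ef (i : Fin n) (w : Fin n → F) (f : Fin n → Fin n → F) :
    ∑ a : Fin n, ∑ b : Fin n, E F i a.succ * w b * f a b = ∑ b : Fin n, w b * f i b := by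
  have h1 : ∀ a : Fin n, ∑ b : Fin n, E F i a.succ * w b * f a b =
      E F i a.succ * ∑ b : Fin n, w b * f a b := by
    intro a
    rw [mul_sum]
    exact sum_congr rfl fun b _ => by ring
  rw [sum_congr rfl fun a _ => h1 a]
  exact sum_E i (fun a => ∑ b : Fin n, w b * f a b)

theorem sum_fE (j : Fin n) (v : Fin n → F) (f : Fin n → Fin n → F) :
    ∑ a : Fin n, ∑ b : Fin n, v a * E F j b.succ * f a b = ∑ a : Fin n, v a * f a j := by
  refine sum_congr rfl fun a _ => ?_
  rw [← sum_E j (fun b => f a b), mul_sum]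
  exact sum_congr rfl fun b _ => by ring

end field

/-- **S_zb** -/
theorem holds (h : S_ct.{u}) : S_zb.{u} := by
  classical
  intro F _ n N κ hκ hN hSL
  obtain ⟨p, q, r, hpqr, a, g, b, hh, c, e, hT⟩ := hSL
  obtain ⟨U, hU, hdU⟩ := exists_ker a
  obtain ⟨V, hV, hdV⟩ := exists_ker b
  obtain ⟨W, hW, hdW⟩ := exists_ker c
  have hform : ∀ u ∈ U, ∀ v ∈ V, ∀ w ∈ W, ∑ a, ∑ b, ∑ c, u a * v b * w c * N a b c = 0 :=
    fun u hu v hv w hw => form_zero hT (hU u hu) (hV v hv) (hW w hw)
  have hdim : 2 * n + 3 ≤ Module.finrank F U + Module.finrank F V + Module.finrank F W := by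
    omega
  -- the use of `S_ct`
  have hct : ∀ ρ₁ ρ₂ ρ₃ : Fin (n + 1) → ℕ, OK ρ₁ → OK ρ₂ → OK ρ₃ →
      (∀ i j : Fin n, ρ₁ i.succ ≤ ρ₁ j.succ → ρ₂ i.succ ≤ ρ₂ j.succ → ρ₃ i.succ ≤ ρ₃ j.succ →
        i = j) →
      Ld ρ₁ U 0 ∧ Ld ρ₂ V 0 ∧ Ld ρ₃ W 0 ∧ ∀ i : Fin n,
        (¬ Ld ρ₁ U i.succ ∧ Ld ρ₂ V i.succ ∧ Ld ρ₃ W i.succ) ∨
        (Ld ρ₁ U i.succ ∧ ¬ Ld ρ₂ V i.succ ∧ Ld ρ₃ W i.succ) ∨
        (Ld ρ₁ U i.succ ∧ Ld ρ₂ V i.succ ∧ ¬ Ld ρ₃ W i.succ) := by
    intro ρ₁ ρ₂ ρ₃ h1 h2 h3 hopp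
    refine h F n N U V W ρ₁ ρ₂ ρ₃ h1.1 h2.1 h3.1 hform hdim ?_
    intro i
    refine ⟨by rw [hN, if_pos ⟨rfl, rfl⟩]; exact hκ i, ?_⟩
    intro x y z hx hy hz hne
    have hx0 : x ≠ 0 := by
      rintro rfl
      exact absurd (h1.2 i) (not_lt.2 hx)
    have hy0 : y ≠ 0 := by
      rintro rfl
      exact absurd (h2.2 i) (not_lt.2 hy)
    have hz0 : z ≠ 0 := by
      rintro rfl
      exact absurd (h3.2 i) (not_lt.2 hz)
    obtain ⟨x, rfl⟩ := Fin.exists_succ_eq.2 hx0
    obtain ⟨y, rfl⟩ := Fin.exists_succ_eq.2 hy0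
    obtain ⟨z, rfl⟩ := Fin.exists_succ_eq.2 hz0
    rw [hN, if_neg]
    rintro ⟨rfl, rfl⟩
    have h4 := hopp i x hx hy hz
    subst h4
    exact hne rfl
  have hbase := hct (up n) (up n) (dn n) ok_up ok_up ok_dn (fun i j _ h2 h3 => opp h2 h3)
  have hbase2 := hct (up n) (dn n) (up n) ok_up ok_dn ok_up (fun i j h1 h2 _ => opp h1 h2)
  -- independence of the order
  have hUi : ∀ ρ : Fin (n + 1) → ℕ, OK ρ → ∀ i : Fin n, (Ld ρ U i.succ ↔ Ld (up n) U i.succ) := by
    intro ρ hρ i
    have h1 := (hct ρ (up n) (dn n) hρ ok_up ok_dn (fun i j _ h2 h3 => opp h2 h3)).2.2.2 i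
    have h2 := hbase.2.2.2 i
    tauto
  have hVi : ∀ ρ : Fin (n + 1) → ℕ, OK ρ → ∀ i : Fin n, (Ld ρ V i.succ ↔ Ld (up n) V i.succ) := by
    intro ρ hρ i
    have h1 := (hct (up n) ρ (dn n) ok_up hρ ok_dn (fun i j h2 _ h3 => opp h2 h3)).2.2.2 i
    have h2 := hbase.2.2.2 i
    tauto
  have hWi : ∀ ρ : Fin (n + 1) → ℕ, OK ρ → ∀ i : Fin n, (Ld ρ W i.succ ↔ Ld (up n) W i.succ) := by
    intro ρ hρ i
    have h1 := (hct (up n) (dn n) ρ ok_up ok_dn hρ (fun i j h2 h3 _ => opp h2 h3)).2.2.2 i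
    have h2 := hbase2.2.2.2 i
    tauto
  have hone : ∀ i : Fin n,
      (¬ Ld (up n) U i.succ ∧ Ld (up n) V i.succ ∧ Ld (up n) W i.succ) ∨
      (Ld (up n) U i.succ ∧ ¬ Ld (up n) V i.succ ∧ Ld (up n) W i.succ) ∨
      (Ld (up n) U i.succ ∧ Ld (up n) V i.succ ∧ ¬ Ld (up n) W i.succ) := by
    intro i
    have h1 := hbase.2.2.2 i
    have h2 := hWi (dn n) ok_dn i
    tauto
  obtain ⟨hEU, u, hu, hu0, huS⟩ := sub_struct U (fun i => Ld (up n) U i.succ)
    (by obtain ⟨u, hu, hu1, _⟩ := hbase.1; exact ⟨u, hu, hu1⟩) (fun ρ hρ i hi => (hUi ρ hρ i).2 hi)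
  obtain ⟨hEV, v, hv, hv0, hvS⟩ := sub_struct V (fun i => Ld (up n) V i.succ)
    (by obtain ⟨u, hu, hu1, _⟩ := hbase.2.1; exact ⟨u, hu, hu1⟩) (fun ρ hρ i hi => (hVi ρ hρ i).2 hi)
  obtain ⟨hEW, w, hw, hw0, hwS⟩ := sub_struct W (fun i => Ld (up n) W i.succ)
    (by obtain ⟨u, hu, hu1, _⟩ := hbase.2.2.1; exact ⟨u, hu, hu1⟩)
    (fun ρ hρ i hi => (hWi ρ hρ i).2 hi)
  -- the partition
  obtain ⟨τ, hτ⟩ : ∃ τ : Fin n → Fin 3, ∀ i, (τ i ≠ 0 → Ld (up n) U i.succ) ∧
      (τ i ≠ 1 → Ld (up n) V i.succ) ∧ (τ i ≠ 2 → Ld (up n) W i.succ) := by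
    have h1 : ∀ i : Fin n, ∃ t : Fin 3, (t ≠ 0 → Ld (up n) U i.succ) ∧
        (t ≠ 1 → Ld (up n) V i.succ) ∧ (t ≠ 2 → Ld (up n) W i.succ) := by
      intro i
      rcases hone i with ⟨_, h2, h3⟩ | ⟨h1, _, h3⟩ | ⟨h1, h2, _⟩
      · exact ⟨0, fun h => absurd rfl h, fun _ => h2, fun _ => h3⟩
      · exact ⟨1, fun _ => h1, fun h => absurd rfl h, fun _ => h3⟩
      · exact ⟨2, fun _ => h1, fun _ => h2, fun h => absurd rfl h⟩
    choose τ hτ using h1
    exact ⟨τ, hτ⟩
  have hμ : ∀ i, τ i ≠ 0 → u i.succ = 0 := fun i hi => huS i ((hτ i).1 hi)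
  have hν : ∀ i, τ i ≠ 1 → v i.succ = 0 := fun i hi => hvS i ((hτ i).2.1 hi)
  have hω : ∀ i, τ i ≠ 2 → w i.succ = 0 := fun i hi => hwS i ((hτ i).2.2 hi)
  have hvw : ∀ i : Fin n, v i.succ * w i.succ = 0 := by
    intro i
    by_cases hi : τ i = 1
    · rw [hω i (by rw [hi]; decide), mul_zero]
    · rw [hν i hi, zero_mul]
  have huw : ∀ i : Fin n, u i.succ * w i.succ = 0 := by
    intro i
    by_cases hi : τ i = 0
    · rw [hω i (by rw [hi]; decide), mul_zero]
    · rw [hμ i hi, zero_mul]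
  have huv : ∀ i : Fin n, u i.succ * v i.succ = 0 := by
    intro i
    by_cases hi : τ i = 0
    · rw [hν i (by rw [hi]; decide), mul_zero]
    · rw [hμ i hi, zero_mul]
  refine ⟨τ, fun i => u i.succ, fun i => v i.succ, fun i => w i.succ, hμ, hν, hω, ?_, ?_, ?_, ?_,
    ?_, ?_, ?_⟩
  · intro j k hj hk
    have h1 := hform u hu (E F j) (hEV j ((hτ j).2.1 hj)) (E F k) (hEW k ((hτ k).2.2 hk))
    rw [form_eq N κ hN, hu0, E_zero, E_zero, sum_EE j k (fun a b => N 0 a.succ b.succ)] at h1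
    have h2 : ∑ i : Fin n, u i.succ * E F j i.succ * E F k i.succ * κ i =
        if j = k then κ j * u j.succ else 0 := by
      have h3 : ∑ i : Fin n, u i.succ * E F j i.succ * E F k i.succ * κ i =
          ∑ i : Fin n, E F j i.succ * (E F k i.succ * (κ i * u i.succ)) :=
        sum_congr rfl fun i _ => by ring
      rw [h3, sum_E j (fun i => E F k i.succ * (κ i * u i.succ)), E_succ]
      split_ifs <;> ring
    rw [h2] at h1
    linear_combination h1
  · intro i k hi hk
    have h1 := hform (E F i) (hEU i ((hτ i).1 hi)) v hv (E F k) (hEW k ((hτ k).2.2 hk))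
    rw [form_eq N κ hN, hv0, E_zero, E_zero, sum_EE i k (fun a b => N a.succ 0 b.succ)] at h1
    have h2 : ∑ j : Fin n, E F i j.succ * v j.succ * E F k j.succ * κ j =
        if i = k then κ i * v i.succ else 0 := by
      have h3 : ∑ j : Fin n, E F i j.succ * v j.succ * E F k j.succ * κ j =
          ∑ j : Fin n, E F i j.succ * (E F k j.succ * (κ j * v j.succ)) :=
        sum_congr rfl fun i _ => by ring
      rw [h3, sum_E i (fun j => E F k j.succ * (κ j * v j.succ)), E_succ]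
      split_ifs <;> ring
    rw [h2] at h1
    linear_combination h1
  · intro i j hi hj
    have h1 := hform (E F i) (hEU i ((hτ i).1 hi)) (E F j) (hEV j ((hτ j).2.1 hj)) w hw
    rw [form_eq N κ hN, hw0, E_zero, E_zero, sum_EE i j (fun a b => N a.succ b.succ 0)] at h1
    have h2 : ∑ k : Fin n, E F i k.succ * E F j k.succ * w k.succ * κ k =
        if i = j then κ i * w i.succ else 0 := by
      have h3 : ∑ k : Fin n, E F i k.succ * E F j k.succ * w k.succ * κ k =
          ∑ k : Fin n, E F i k.succ * (E F j k.succ * (κ k * w k.succ)) :=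
        sum_congr rfl fun i _ => by ring
      rw [h3, sum_E i (fun k => E F j k.succ * (κ k * w k.succ)), E_succ]
      split_ifs <;> ring
    rw [h2] at h1
    linear_combination h1
  · intro i hi
    have h1 := hform (E F i) (hEU i ((hτ i).1 hi)) v hv w hw
    rw [form_eq N κ hN, hv0, hw0, E_zero, sum_E i (fun a => N a.succ 0 0),
      sum_Ef i (fun k => w k.succ) (fun a b => N a.succ 0 b.succ),
      sum_Ef i (fun k => v k.succ) (fun a b => N a.succ b.succ 0)] at h1
    have h2 : ∑ j : Fin n, E F i j.succ * v j.succ * w j.succ * κ j = 0 :=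
      sum_eq_zero fun j _ => by rw [mul_assoc (E F i j.succ), hvw j, mul_zero, zero_mul]
    rw [h2] at h1
    linear_combination h1
  · intro j hj
    have h1 := hform u hu (E F j) (hEV j ((hτ j).2.1 hj)) w hw
    rw [form_eq N κ hN, hu0, hw0, E_zero, sum_E j (fun a => N 0 a.succ 0),
      sum_Ef j (fun k => w k.succ) (fun a b => N 0 a.succ b.succ),
      sum_fE j (fun k => u k.succ) (fun a b => N a.succ b.succ 0)] at h1
    have h2 : ∑ i : Fin n, u i.succ * E F j i.succ * w i.succ * κ i = 0 :=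
      sum_eq_zero fun i _ => by
        have : u i.succ * E F j i.succ * w i.succ * κ i =
          (u i.succ * w i.succ) * (E F j i.succ * κ i) := by ring
        rw [this, huw i, zero_mul]
    rw [h2] at h1
    linear_combination h1
  · intro k hk
    have h1 := hform u hu v hv (E F k) (hEW k ((hτ k).2.2 hk))
    rw [form_eq N κ hN, hu0, hv0, E_zero, sum_E k (fun a => N 0 0 a.succ),
      sum_fE k (fun j => v j.succ) (fun a b => N 0 a.succ b.succ),
      sum_fE k (fun i => u i.succ) (fun a b => N a.succ 0 b.succ)] at h1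
    have h2 : ∑ i : Fin n, u i.succ * v i.succ * E F k i.succ * κ i = 0 :=
      sum_eq_zero fun i _ => by rw [huv i, zero_mul, zero_mul]
    rw [h2] at h1
    linear_combination h1
  · have h1 := hform u hu v hv w hw
    rw [form_eq N κ hN, hu0, hv0, hw0] at h1
    have h2 : ∑ i : Fin n, u i.succ * v i.succ * w i.succ * κ i = 0 :=
      sum_eq_zero fun i _ => by rw [huv i, zero_mul, zero_mul]
    rw [h2] at h1
    linear_combination h1

end Pool.Agent.H183.FF_ZB
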