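import Pool.Agent.H979.GW.StmC
import Pool.Agent.H979.QIP.Modu2

set_option autoImplicit false
set_option linter.unusedSectionVars false
set_option linter.unusedVariables false

open MeasureTheory ProbabilityTheory Filter Topology Set
open scoped ENNReal NNReal

/-!
# The functional limit theorem for an additive functional of a Markov chain (`GW.S_FCLT`)
-/

namespace Pool.Agent.H183.GWF

open Pool.Agent.H979.QIP (P K V bm S A AT cen)
open Pool.Agent.H979.GW (tru)
open Pool.Agent.H979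

variable {X : Type} [Countable X] [MeasurableSpace X] [MeasurableSingletonClass X]
  (q : X → Measure X) [∀ x, IsProbabilityMeasure (q x)]

/-- centred truncation -/
noncomputable def ct (L : ℕ) (ξ : X → X → ℝ) (x y : X) : ℝ :=
  tru L (ξ x y) - ∫ z, tru L (ξ x z) ∂(q x)

/-- the rest of the truncation -/
noncomputable def cr (L : ℕ) (ξ : X → X → ℝ) (x y : X) : ℝ := ξ x y - tru L (ξ x y)

theorem tru_le {L : ℝ} (hL : 0 ≤ L) (x : ℝ) : |tru L x| ≤ L := QIP.abs_tru_le hL x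

theorem tru_int (L : ℕ) (ξ : X → X → ℝ) (x : X) : Integrable (fun z => tru L (ξ x z)) (q x) :=
  Integrable.of_bound (measurable_of_countable _).aestronglyMeasurable L
    (Eventually.of_forall fun y => tru_le (Nat.cast_nonneg L) _)

theorem ct_bdd (L : ℕ) (ξ : X → X → ℝ) (x y : X) : |ct q L ξ x y| ≤ 2 * L := by
  have h1 := norm_integral_le_of_norm_le_const (μ := q x) (f := fun z => tru L (ξ x z))
    (C := (L : ℝ)) (Eventually.of_forall fun z => tru_le (Nat.cast_nonneg L) _)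
  have h2 : |∫ z, tru L (ξ x z) ∂(q x)| ≤ L := by simpa using h1
  have h3 : |tru L (ξ x y)| ≤ L := tru_le (Nat.cast_nonneg L) (ξ x y)
  unfold ct
  exact (abs_sub _ _).trans (by linarith)

theorem ct_mean (L : ℕ) (ξ : X → X → ℝ) (x : X) : ∫ y, ct q L ξ x y ∂(q x) = 0 := by
  unfold ct
  rw [integral_sub (tru_int q L ξ x) (integrable_const _), integral_const]
  simp

theorem cr_le (L : ℕ) (ξ : X → X → ℝ) (x y : X) : |cr L ξ x y| ≤ |ξ x y| :=
  QIP.tru_rest (Nat.cast_nonneg L) (ξ x y)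

theorem V_cr_le (L : ℕ) (ξ : X → X → ℝ) (x : X) : V q (cr L ξ) x ≤ V q ξ x :=
  lintegral_mono fun y => ENNReal.ofReal_le_ofReal (sq_le_sq.2 (cr_le L ξ x y))

theorem V_cr_eq {L : ℕ} {ξ : X → X → ℝ} {x : X} (h : V q (cr L ξ) x ≠ ∞) :
    V q (cr L ξ) x = ENNReal.ofReal (∫ y, (ξ x y - tru L (ξ x y)) ^ 2 ∂(q x)) := by
  have hL := QIP.memLp_of_V q h
  exact (ofReal_integral_eq_lintegral_ofReal hL.integrable_sq
    (Eventually.of_forall fun y => sq_nonneg _)).symm

theorem split {ξ : X → X → ℝ} {x : X} (hV : V q ξ x ≠ ∞) (h0 : bm q ξ x = 0) (L : ℕ) (y : X) :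
    ξ x y = ct q L ξ x y + cen q (cr L ξ) x y := by
  have hi : Integrable (ξ x) (q x) := (QIP.memLp_of_V q hV).integrable (by norm_num)
  have e : bm q (cr L ξ) x = - ∫ z, tru L (ξ x z) ∂(q x) := by
    unfold bm cr
    rw [integral_sub hi (tru_int q L ξ x)]
    unfold bm at h0
    rw [h0, zero_sub]
  unfold cen
  rw [e]
  unfold ct cr
  ring

theorem S_split {ξ : X → X → ℝ} (hV : ∀ x, V q ξ x ≠ ∞) (h0 : ∀ x, bm q ξ x = 0) (L k : ℕ)
    (w : ℕ → X) : S ξ k w = S (ct q L ξ) k w + S (cen q (cr L ξ)) k w := by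
  unfold S
  rw [← Finset.sum_add_distrib]
  exact Finset.sum_congr rfl fun j _ => split q (hV _) (h0 _) L _

/-- the rest is small -/
theorem rest_small {ξ : X → X → ℝ} (x₀ : X) (hV : ∀ x, V q ξ x ≠ ∞)
    (hR : ∀ δ η' : ℝ, 0 < δ → 0 < η' → ∃ L₀ : ℕ, ∀ L : ℕ, L₀ ≤ L → ∀ᶠ n : ℕ in atTop,
      P q x₀ {w | δ * n < ∑ s ∈ Finset.range n, ∫ y, (ξ (w s) y - tru L (ξ (w s) y)) ^ 2
        ∂(q (w s))} ≤ ENNReal.ofReal η') {K' : ℕ} (hK : 1 ≤ K') {e p : ℝ} (he : 0 < e)
    (hp : 0 < p) :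
    ∃ L₀ : ℕ, ∀ L : ℕ, L₀ ≤ L → ∀ᶠ n : ℕ in atTop,
      P q x₀ {w | ∃ k ≤ K' * n, e * √n < |S (cen q (cr L ξ)) k w|} ≤ ENNReal.ofReal p := by
  have hK0 : (0 : ℝ) < K' := by exact_mod_cast hK
  obtain ⟨L₀, hL₀⟩ := hR (e ^ 2 * (p / 2) / K') (p / 2) (by positivity) (by positivity)
  refine ⟨L₀, fun L hL => ?_⟩
  have hm : Tendsto (fun n : ℕ => K' * n) atTop atTop :=
    tendsto_id.const_mul_atTop' (by omega)
  filter_upwards [hm.eventually (hL₀ L hL), eventually_ge_atTop 1] with n hn hn1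
  have hn0 : (0 : ℝ) < n := by exact_mod_cast hn1
  have hcr : ∀ x, V q (cr L ξ) x ≠ ∞ := fun x => ne_top_of_le_ne_top (hV x) (V_cr_le q L ξ x)
  have hVc : ∀ x, V q (cen q (cr L ξ)) x ≠ ∞ := fun x =>
    ne_top_of_le_ne_top (hcr x) (QIP.V_cen_le q (hcr x))
  have hl := QIP.lenglart q hVc (fun x => QIP.bm_cen q (hcr x)) (r := e * √n) (by positivity)
    (K' * n) x₀ 0 (ENNReal.ofReal (e ^ 2 * n * (p / 2)))
  simp only [zero_add] at hl
  refine hl.trans ?_
  have e1 : (ENNReal.ofReal ((0 : ℝ) ^ 2) + ENNReal.ofReal (e ^ 2 * n * (p / 2))) /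
      ENNReal.ofReal ((e * √n) ^ 2) = ENNReal.ofReal (p / 2) := by
    rw [zero_pow (by norm_num), ENNReal.ofReal_zero, zero_add,
      ← ENNReal.ofReal_div_of_pos (by positivity), mul_pow, Real.sq_sqrt hn0.le]
    congr 1
    field_simp
  have e2 : P q x₀ {w | ENNReal.ofReal (e ^ 2 * n * (p / 2)) <
      A (V q (cen q (cr L ξ))) (K' * n) w} ≤ ENNReal.ofReal (p / 2) := by
    refine (measure_mono fun w hw => ?_).trans hn
    simp only [mem_ofPred_eq] at hw ⊢
    have h1 : A (V q (cen q (cr L ξ))) (K' * n) w ≤ ENNReal.ofReal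
        (∑ s ∈ Finset.range (K' * n), ∫ y, (ξ (w s) y - tru L (ξ (w s) y)) ^ 2 ∂(q (w s))) := by
      rw [ENNReal.ofReal_sum_of_nonneg fun _ _ => integral_nonneg fun _ => sq_nonneg _]
      unfold A
      refine Finset.sum_le_sum fun s _ => ?_
      rw [← V_cr_eq q (hcr _)]
      exact QIP.V_cen_le q (hcr _)
    have h2 := hw.trans_le h1
    rw [ENNReal.ofReal_lt_ofReal_iff_of_nonneg (by positivity)] at h2
    refine lt_of_le_of_lt (le_of_eq ?_) h2
    push_cast
    field_simp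
  rw [e1]
  refine (add_le_add le_rfl e2).trans (le_of_eq ?_)
  rw [← ENNReal.ofReal_add (by positivity) (by positivity), add_halves]

/-- averages -/
def AV (g : X → ℝ) (c : ℝ) (x₀ : X) : Prop :=
  Tendsto (fun n : ℕ => ∫⁻ w, ENNReal.ofReal |(∑ k ∈ Finset.range n, g (w k)) / n - c|
    ∂(P q x₀)) atTop (𝓝 0)

theorem meas_sum (g : X → ℝ) (n : ℕ) :
    Measurable (fun w : ℕ → X => ∑ k ∈ Finset.range n, g (w k)) :=
  Finset.measurable_sum _ fun j _ => (measurable_of_countable g).comp (measurable_pi_apply j)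

theorem AV_of {g : X → ℝ} {M c : ℝ} {x₀ : X} (hM : ∀ x, |g x| ≤ M)
    (h : ∀ δ : ℝ, 0 < δ → Tendsto (fun n : ℕ => P q x₀ {w | δ * n <
      |∑ s ∈ Finset.range n, g (w s) - c * n|}) atTop (𝓝 0)) : AV q g c x₀ := by
  have hM0 : 0 ≤ M := (abs_nonneg _).trans (hM x₀)
  unfold AV
  rw [ENNReal.tendsto_atTop_zero]
  intro ε hε
  by_cases hεt : ε = ∞
  · exact ⟨0, fun n _ => by rw [hεt]; exact le_top⟩
  have hε' : 0 < ε.toReal := ENNReal.toReal_pos hε.ne' hεt
  set δ : ℝ := ε.toReal / 2 with hδ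
  have hδ0 : 0 < δ := by positivity
  have h1 := h δ hδ0
  have h2 : Tendsto (fun n : ℕ => ENNReal.ofReal (M + |c|) * P q x₀ {w | δ * n <
      |∑ s ∈ Finset.range n, g (w s) - c * n|}) atTop (𝓝 0) := by
    have := ENNReal.Tendsto.const_mul h1 (Or.inr (ENNReal.ofReal_ne_top (r := M + |c|)))
    simpa using this
  have h3 := (tendsto_order.1 h2).2 (ENNReal.ofReal δ) (ENNReal.ofReal_pos.2 hδ0)
  obtain ⟨n0, hn0⟩ := eventually_atTop.1 h3
  refine ⟨max n0 1, fun n hn => ?_⟩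
  have h4 := hn0 n ((le_max_left _ _).trans hn)
  have hn1 : 1 ≤ n := (le_max_right _ _).trans hn
  have hnp : (0 : ℝ) < n := by exact_mod_cast hn1
  obtain ⟨E, hE⟩ : ∃ E : Set (ℕ → X), E = {w | δ * n < |∑ s ∈ Finset.range n, g (w s) - c * n|} :=
    ⟨_, rfl⟩
  have mE : MeasurableSet E := by
    rw [hE]
    exact measurableSet_lt measurable_const ((meas_sum g n).sub_const _).abs
  have h5 : ∀ w : ℕ → X, ENNReal.ofReal |(∑ k ∈ Finset.range n, g (w k)) / n - c| ≤
      ENNReal.ofReal δ + ENNReal.ofReal (M + |c|) * E.indicator (1 : (ℕ → X) → ℝ≥0∞) w := by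
    intro w
    have e1 : |(∑ k ∈ Finset.range n, g (w k)) / n - c| =
        |∑ s ∈ Finset.range n, g (w s) - c * n| / n := by
      rw [← abs_of_pos hnp, ← abs_div, abs_of_pos hnp]
      congr 1
      field_simp
    by_cases hw : w ∈ E
    · rw [indicator_of_mem hw, Pi.one_apply, mul_one]
      refine le_trans (ENNReal.ofReal_le_ofReal ?_) le_add_self
      refine (abs_sub _ _).trans (add_le_add ?_ le_rfl)
      rw [abs_div, abs_of_pos hnp, div_le_iff₀ hnp]
      refine (Finset.abs_sum_le_sum_abs _ _).trans ?_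
      refine (Finset.sum_le_sum fun k _ => hM (w k)).trans (le_of_eq ?_)
      simp
      ring
    · refine le_trans (ENNReal.ofReal_le_ofReal ?_) le_self_add
      rw [e1, div_le_iff₀ hnp]
      rw [hE, mem_ofPred_eq, not_lt] at hw
      exact hw
  refine (lintegral_mono h5).trans ?_
  rw [lintegral_add_left measurable_const, lintegral_const, measure_univ, mul_one,
    lintegral_const_mul' _ _ ENNReal.ofReal_ne_top, lintegral_indicator_one mE, hE]
  refine (add_le_add le_rfl h4.le).trans (le_of_eq ?_)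
  rw [← ENNReal.ofReal_add hδ0.le hδ0.le, hδ, add_halves, ENNReal.ofReal_toReal hεt]

theorem AV.time {g : X → ℝ} {c : ℝ} {x₀ : X} (hg : AV q g c x₀) {t : ℝ} (ht : 0 ≤ t) :
    Tendsto (fun n : ℕ => ∫⁻ w, ENNReal.ofReal
      |(∑ k ∈ Finset.range ⌊t * n⌋₊, g (w k)) / n - t * c| ∂(P q x₀)) atTop (𝓝 0) := by
  rcases ht.eq_or_lt with rfl | ht
  · simp
  have hm : Tendsto (fun n : ℕ => ⌊t * n⌋₊) atTop atTop := by
    refine tendsto_nat_floor_atTop.comp ?_
    exact tendsto_natCast_atTop_atTop.const_mul_atTop ht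
  have hfl : Tendsto (fun n : ℕ => ((⌊t * n⌋₊ : ℕ) : ℝ) / n) atTop (𝓝 t) :=
    (tendsto_nat_floor_mul_div_atTop ht.le).comp tendsto_natCast_atTop_atTop
  have h1 : Tendsto (fun n : ℕ => ∫⁻ w, ENNReal.ofReal
      |(∑ k ∈ Finset.range ⌊t * n⌋₊, g (w k)) / (⌊t * n⌋₊ : ℕ) - c| ∂(P q x₀))
      atTop (𝓝 0) := hg.comp hm
  have h2 : Tendsto (fun n : ℕ => ENNReal.ofReal (((⌊t * n⌋₊ : ℕ) : ℝ) / n) * ∫⁻ w, ENNReal.ofReal
      |(∑ k ∈ Finset.range ⌊t * n⌋₊, g (w k)) / (⌊t * n⌋₊ : ℕ) - c| ∂(P q x₀) +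
      ENNReal.ofReal (|((⌊t * n⌋₊ : ℕ) : ℝ) / n - t| * |c|)) atTop (𝓝 0) := by
    have a1 := ENNReal.Tendsto.mul (ENNReal.tendsto_ofReal hfl) (Or.inr ENNReal.zero_ne_top) h1
      (Or.inr ENNReal.ofReal_ne_top)
    have a2 : Tendsto (fun n : ℕ => ENNReal.ofReal (|((⌊t * n⌋₊ : ℕ) : ℝ) / n - t| * |c|)) atTop
        (𝓝 (ENNReal.ofReal (|t - t| * |c|))) :=
      ENNReal.tendsto_ofReal (((hfl.sub_const t).abs).mul_const _)
    have := a1.add a2
    simpa using this
  refine tendsto_of_tendsto_of_tendsto_of_le_of_le' tendsto_const_nhds h2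
    (Eventually.of_forall fun n => zero_le) ?_
  filter_upwards [hm.eventually_ge_atTop 1, eventually_ge_atTop 1] with n hn1 hn2
  have hm0 : (0 : ℝ) < (⌊t * n⌋₊ : ℕ) := by exact_mod_cast hn1
  have hn0 : (0 : ℝ) < n := by exact_mod_cast hn2
  rw [← lintegral_const_mul' _ _ ENNReal.ofReal_ne_top]
  have e0 : ENNReal.ofReal (|((⌊t * n⌋₊ : ℕ) : ℝ) / n - t| * |c|) =
      ∫⁻ w, ENNReal.ofReal (|((⌊t * n⌋₊ : ℕ) : ℝ) / n - t| * |c|) ∂(P q x₀) := by
    rw [lintegral_const, measure_univ, mul_one]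
  rw [e0, ← lintegral_add_right _ measurable_const]
  refine lintegral_mono fun w => ?_
  rw [← ENNReal.ofReal_mul (by positivity), ← ENNReal.ofReal_add (by positivity) (by positivity)]
  refine ENNReal.ofReal_le_ofReal ?_
  have e1 : (∑ k ∈ Finset.range ⌊t * n⌋₊, g (w k)) / n - t * c =
      ((⌊t * n⌋₊ : ℕ) : ℝ) / n * ((∑ k ∈ Finset.range ⌊t * n⌋₊, g (w k)) /
        (⌊t * n⌋₊ : ℕ) - c) + (((⌊t * n⌋₊ : ℕ) : ℝ) / n - t) * c := by
    field_simp
    ring
  rw [e1]
  refine (abs_add_le _ _).trans ?_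
  rw [abs_mul, abs_mul, abs_of_pos (div_pos hm0 hn0)]

/-- finite dimensional distributions, bounded increments -/
theorem fdd_bdd {ξ : X → X → ℝ} {M : ℝ} {x₀ : X} (hM : ∀ x y, |ξ x y| ≤ M)
    (h0 : ∀ x, ∫ y, ξ x y ∂(q x) = 0) {c : ℝ}
    (hc : AV q (fun x => ∫ y, ξ x y ^ 2 ∂(q x)) c x₀) (k : ℕ) (t : Fin k → ℝ) (u : Fin k → ℝ)
    (ht : ∀ j, 0 ≤ t j) :
    Tendsto (fun n : ℕ => ∫ w, Complex.exp (((∑ j, u j * (S ξ ⌊t j * n⌋₊ w / √n) : ℝ) : ℂ) *
      Complex.I) ∂(P q x₀)) atTop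
      (𝓝 ((Real.exp (-((∑ j, ∑ l, min (t j) (t l) * (u j * c * u l)) / 2)) : ℝ) : ℂ)) := by
  have hM0 : 0 ≤ M := (abs_nonneg _).trans (hM x₀ x₀)
  set U : ℝ := ∑ j, |u j| with hU
  have hU0 : 0 ≤ U := Finset.sum_nonneg fun _ _ => abs_nonneg _
  set T : ℝ := ∑ j, t j with hT
  have hT0 : 0 ≤ T := Finset.sum_nonneg fun j _ => ht j
  have htT : ∀ j, t j ≤ T := fun j => Finset.single_le_sum (fun i _ => ht i) (Finset.mem_univ j)
  set v : ℝ := ∑ j, ∑ l, min (t j) (t l) * (u j * c * u l) with hv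
  set g : X → ℝ := fun x => ∫ y, ξ x y ^ 2 ∂(q x) with hg
  -- the increments
  set Ξ : ℕ → ℕ → X → X → ℝ := fun n j x y =>
    ∑ k, (if j < ⌊t k * n⌋₊ then u k / √n else 0) * ξ x y with hΞ
  set N : ℕ → ℕ := fun n => ⌊T * n⌋₊ with hN
  have hmN : ∀ (n : ℕ) (k' : Fin k), ⌊t k' * n⌋₊ ≤ N n := fun n k =>
    Nat.floor_le_floor (mul_le_mul_of_nonneg_right (htT k) (Nat.cast_nonneg n))
  have hST : ∀ (n : ℕ) w, QIP.ST (Ξ n) (N n) w = ∑ j, u j * (S ξ ⌊t j * n⌋₊ w / √n) := by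
    intro n w
    unfold QIP.ST
    simp only [hΞ]
    rw [Finset.sum_comm]
    refine Finset.sum_congr rfl fun k _ => ?_
    simp_rw [ite_mul, zero_mul]
    rw [← Finset.sum_filter]
    have e1 : (Finset.range (N n)).filter (fun j => j < ⌊t k * n⌋₊) = Finset.range ⌊t k * n⌋₊ := by
      ext j
      simp only [Finset.mem_filter, Finset.mem_range]
      have := hmN n k
      omega
    rw [e1]
    unfold S
    rw [Finset.sum_div, Finset.mul_sum]
    exact Finset.sum_congr rfl fun j _ => by ring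
  have hint : ∀ x, Integrable (ξ x) (q x) := fun x =>
    Integrable.of_bound (measurable_of_countable _).aestronglyMeasurable M
      (Eventually.of_forall fun y => hM x y)
  have hint2 : ∀ x, Integrable (fun y => ξ x y ^ 2) (q x) := fun x =>
    Integrable.of_bound (measurable_of_countable _).aestronglyMeasurable (M ^ 2)
      (Eventually.of_forall fun y => by
        rw [Real.norm_eq_abs, abs_pow]
        exact pow_le_pow_left₀ (abs_nonneg _) (hM x y) 2)
  have hmean : ∀ n j x, ∫ y, Ξ n j x y ∂(q x) = 0 := by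
    intro n j x
    simp only [hΞ]
    rw [integral_finset_sum _ fun k _ => (hint x).const_mul _]
    refine Finset.sum_eq_zero fun k _ => ?_
    rw [integral_const_mul, h0, mul_zero]
  have hbd : ∀ n, ∀ j x y, |Ξ n j x y| ≤ U * M / √n := by
    intro n j x y
    simp only [hΞ]
    refine (Finset.abs_sum_le_sum_abs _ _).trans ?_
    have : ∀ k ∈ Finset.univ, |(if j < ⌊t k * n⌋₊ then u k / √n else 0) * ξ x y| ≤
        |u k| * M / √n := by
      intro k _
      rw [abs_mul]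
      have h1 : |if j < ⌊t k * n⌋₊ then u k / √n else 0| ≤ |u k| / √n := by
        split_ifs
        · rw [abs_div, abs_of_nonneg (Real.sqrt_nonneg _)]
        · rw [abs_zero]; positivity
      calc _ ≤ |u k| / √n * M := mul_le_mul h1 (hM x y) (abs_nonneg _) (by positivity)
        _ = _ := by ring
    refine (Finset.sum_le_sum this).trans (le_of_eq ?_)
    rw [hU, Finset.sum_mul, Finset.sum_div]
  -- the variances
  have hAT : ∀ n : ℕ, ∀ w, 1 ≤ n → AT q (Ξ n) (N n) w = ∑ j, ∑ l, u j * u l *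
      ((∑ i ∈ Finset.range ⌊min (t j) (t l) * n⌋₊, g (w i)) / n) := by
    intro n w hn
    have hn0 : (0 : ℝ) < n := by exact_mod_cast hn
    unfold AT
    have e1 : ∀ i, ∫ y, Ξ n i (w i) y ^ 2 ∂(q (w i)) = ∑ j, ∑ l, u j * u l *
        ((if i < ⌊min (t j) (t l) * n⌋₊ then g (w i) else 0) / n) := by
      intro i
      have e2 : ∀ y, Ξ n i (w i) y ^ 2 = ∑ j, ∑ l,
          ((if i < ⌊t j * n⌋₊ then u j / √n else 0) * (if i < ⌊t l * n⌋₊ then u l / √n else 0)) *
          ξ (w i) y ^ 2 := by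
        intro y
        simp only [hΞ]
        rw [sq, Finset.sum_mul_sum]
        exact Finset.sum_congr rfl fun j _ => Finset.sum_congr rfl fun l _ => by ring
      simp_rw [e2]
      rw [integral_finset_sum _ fun j _ => integrable_finset_sum _ fun l _ =>
        (hint2 (w i)).const_mul _]
      refine Finset.sum_congr rfl fun j _ => ?_
      rw [integral_finset_sum _ fun l _ => (hint2 (w i)).const_mul _]
      refine Finset.sum_congr rfl fun l _ => ?_
      rw [integral_const_mul]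
      have hmin : (i < ⌊min (t j) (t l) * n⌋₊) ↔ (i < ⌊t j * n⌋₊ ∧ i < ⌊t l * n⌋₊) := by
        have : ⌊min (t j) (t l) * n⌋₊ = min ⌊t j * n⌋₊ ⌊t l * n⌋₊ := by
          rcases le_total (t j) (t l) with h1 | h1
          · rw [min_eq_left h1, min_eq_left]
            exact Nat.floor_le_floor (mul_le_mul_of_nonneg_right h1 hn0.le)
          · rw [min_eq_right h1, min_eq_right]
            exact Nat.floor_le_floor (mul_le_mul_of_nonneg_right h1 hn0.le)
        rw [this, lt_min_iff]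
      have hsq : √(n : ℝ) * √n = n := Real.mul_self_sqrt hn0.le
      have hsn : √(n : ℝ) ≠ 0 := (Real.sqrt_pos.2 hn0).ne'
      by_cases h1 : i < ⌊t j * n⌋₊
      · by_cases h2 : i < ⌊t l * n⌋₊
        · rw [if_pos h1, if_pos h2, if_pos (hmin.2 ⟨h1, h2⟩), div_mul_div_comm, hsq]
          simp only [hg]
          ring
        · rw [if_neg h2, if_neg (fun h3 => h2 (hmin.1 h3).2)]
          simp
      · rw [if_neg h1, if_neg (fun h3 => h1 (hmin.1 h3).1)]
        simp
    simp_rw [e1]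
    rw [Finset.sum_comm]
    refine Finset.sum_congr rfl fun j _ => ?_
    rw [Finset.sum_comm]
    refine Finset.sum_congr rfl fun l _ => ?_
    rw [← Finset.mul_sum, ← Finset.sum_div, ← Finset.sum_filter]
    congr 3
    ext i
    simp only [Finset.mem_filter, Finset.mem_range]
    have h2 : ⌊min (t j) (t l) * n⌋₊ ≤ N n :=
      (Nat.floor_le_floor (mul_le_mul_of_nonneg_right (min_le_left _ _) hn0.le)).trans (hmN n j)
    omega
  -- convergence of the variances
  have hlimv : Tendsto (fun n : ℕ => ∫⁻ w, ENNReal.ofReal |AT q (Ξ n) (N n) w - v|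
      ∂(P q x₀)) atTop (𝓝 0) := by
    have hlim1 : Tendsto (fun n : ℕ => ∑ j : Fin k, ∑ l : Fin k,
        ENNReal.ofReal (|u j * u l|) * ∫⁻ w, ENNReal.ofReal
        |(∑ i ∈ Finset.range ⌊min (t j) (t l) * n⌋₊, g (w i)) / n - min (t j) (t l) * c|
        ∂(P q x₀)) atTop (𝓝 (∑ j : Fin k, ∑ l : Fin k,
        ENNReal.ofReal (|u j * u l|) * 0)) := by
      refine tendsto_finsetSum _ fun j _ => tendsto_finsetSum _ fun l _ => ?_
      exact ENNReal.Tendsto.const_mul (hc.time q (le_min (ht j) (ht l)))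
        (Or.inr ENNReal.ofReal_ne_top)
    simp only [mul_zero, Finset.sum_const_zero] at hlim1
    refine tendsto_of_tendsto_of_tendsto_of_le_of_le' tendsto_const_nhds hlim1
      (Eventually.of_forall fun n => zero_le) ?_
    filter_upwards [eventually_ge_atTop 1] with n hn
    have hle : ∀ w : ℕ → X, ENNReal.ofReal |AT q (Ξ n) (N n) w - v| ≤
        ∑ j : Fin k, ∑ l : Fin k, ENNReal.ofReal (|u j * u l|) * ENNReal.ofReal
        |(∑ i ∈ Finset.range ⌊min (t j) (t l) * n⌋₊, g (w i)) / n - min (t j) (t l) * c| := by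
      intro w
      rw [hAT n w hn]
      have e1 : v = ∑ j, ∑ l, u j * u l * (min (t j) (t l) * c) := by
        rw [hv]
        exact Finset.sum_congr rfl fun j _ => Finset.sum_congr rfl fun l _ => by ring
      rw [e1]
      simp_rw [← ENNReal.ofReal_mul (abs_nonneg _)]
      rw [← Finset.sum_sub_distrib]
      have hsum : ∀ {ι : Type} (s : Finset ι) (f : ι → ℝ), ENNReal.ofReal |∑ i ∈ s, f i| ≤
          ∑ i ∈ s, ENNReal.ofReal |f i| := by
        intro ι s f
        rw [← ENNReal.ofReal_sum_of_nonneg fun _ _ => abs_nonneg _]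
        exact ENNReal.ofReal_le_ofReal (Finset.abs_sum_le_sum_abs _ _)
      refine (hsum _ _).trans (Finset.sum_le_sum fun j _ => ?_)
      rw [← Finset.sum_sub_distrib]
      refine (hsum _ _).trans (Finset.sum_le_sum fun l _ => ?_)
      rw [← mul_sub, abs_mul]
    refine (lintegral_mono hle).trans (le_of_eq ?_)
    have mea : ∀ (j l : Fin k), Measurable (fun w : ℕ → X =>
        ENNReal.ofReal (|u j * u l|) * ENNReal.ofReal
        |(∑ i ∈ Finset.range ⌊min (t j) (t l) * n⌋₊, g (w i)) / n - min (t j) (t l) * c|) := by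
      intro j l
      exact ((((meas_sum g _).div_const _).sub_const _).abs.ennreal_ofReal).const_mul _
    rw [lintegral_finsetSum _ fun j _ => Finset.measurable_sum _ fun l _ => mea j l]
    refine Finset.sum_congr rfl fun j _ => ?_
    rw [lintegral_finsetSum _ fun l _ => mea j l]
    refine Finset.sum_congr rfl fun l _ => ?_
    rw [lintegral_const_mul' _ _ ENNReal.ofReal_ne_top]
  have mAT : ∀ n, Measurable (fun w : ℕ → X => |AT q (Ξ n) (N n) w - v|) := fun n =>
    ((QIP.dep_AT q (Ξ n) (le_refl (N n))).measurable.sub_const v).abs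
  -- `v` is nonnegative
  have hv0 : 0 ≤ v := by
    by_contra hneg
    push Not at hneg
    have h1 : ∀ n : ℕ, ENNReal.ofReal (-v) ≤ ∫⁻ w, ENNReal.ofReal
        |AT q (Ξ n) (N n) w - v| ∂(P q x₀) := by
      intro n
      calc ENNReal.ofReal (-v) = ∫⁻ w, ENNReal.ofReal (-v) ∂(P q x₀) := by
            rw [lintegral_const, measure_univ, mul_one]
        _ ≤ _ := lintegral_mono fun w => ENNReal.ofReal_le_ofReal (by
            have := QIP.AT_nonneg q (Ξ n) (N n) w
            exact le_trans (by linarith) (le_abs_self _))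
    have h2 := ge_of_tendsto' hlimv h1
    have h3 : ENNReal.ofReal (-v) = 0 := le_antisymm h2 zero_le
    rw [ENNReal.ofReal_eq_zero] at h3
    linarith
  -- conclusion
  set B : ℝ := (T + 1) * (U * M) ^ 2 with hB
  have hB0 : 0 ≤ B := by positivity
  have hlimr : Tendsto (fun n : ℕ => ∫ w, |AT q (Ξ n) (N n) w - v| ∂(P q x₀))
      atTop (𝓝 0) := by
    have h1 := (ENNReal.tendsto_toReal ENNReal.zero_ne_top).comp hlimv
    rw [ENNReal.toReal_zero] at h1
    refine h1.congr fun n => ?_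
    simp only [Function.comp]
    rw [integral_eq_lintegral_of_nonneg_ae (Eventually.of_forall fun w => abs_nonneg _)
      (mAT n).aestronglyMeasurable]
  have hlimc : Tendsto (fun n : ℕ => U * M / √n) atTop (𝓝 0) :=
    Tendsto.div_atTop tendsto_const_nhds
      (Real.tendsto_sqrt_atTop.comp tendsto_natCast_atTop_atTop)
  rw [tendsto_iff_norm_sub_tendsto_zero]
  have hlimtot : Tendsto (fun n : ℕ => Real.exp (B / 2) *
      (∫ w, |AT q (Ξ n) (N n) w - v| ∂(P q x₀) + B * (U * M / √n))) atTop (𝓝 0) := by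
    have := ((hlimr.add (hlimc.const_mul B))).const_mul (Real.exp (B / 2))
    simpa using this
  refine tendsto_of_tendsto_of_tendsto_of_le_of_le' tendsto_const_nhds hlimtot
    (Eventually.of_forall fun n => norm_nonneg _) ?_
  filter_upwards [(tendsto_order.1 hlimc).2 1 one_pos, eventually_ge_atTop 1] with n hn1 hn2
  have hn0 : (0 : ℝ) < n := by exact_mod_cast hn2
  have hsq : √(n : ℝ) * √n = n := Real.mul_self_sqrt hn0.le
  have hNn : (N n : ℝ) ≤ (T + 1) * n := by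
    have : (N n : ℝ) ≤ T * n := Nat.floor_le (by positivity)
    nlinarith
  have hcc : (N n : ℝ) * (U * M / √n) ^ 2 ≤ B := by
    rw [div_pow, Real.sq_sqrt hn0.le, hB]
    calc (N n : ℝ) * ((U * M) ^ 2 / n) ≤ ((T + 1) * n) * ((U * M) ^ 2 / n) :=
          mul_le_mul_of_nonneg_right hNn (by positivity)
      _ = _ := by field_simp
  have hclt := QIP.clt q hn1.le (N n) x₀ (Ξ n) (hbd n) (hmean n) hv0 hcc
  simp_rw [hST] at hclt
  refine hclt.trans ?_
  refine mul_le_mul_of_nonneg_left (add_le_add le_rfl ?_) (Real.exp_pos _).le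
  have h0c : 0 ≤ U * M / √n := by positivity
  calc (N n : ℝ) * (U * M / √n) ^ 3 = ((N n : ℝ) * (U * M / √n) ^ 2) * (U * M / √n) := by ring
    _ ≤ B * (U * M / √n) := mul_le_mul_of_nonneg_right hcc h0c

theorem exp_diff {W : Type*} [MeasurableSpace W] {ν : Measure W} [IsProbabilityMeasure ν]
    {Y Z : W → ℝ} (hY : Measurable Y) (hZ : Measurable Z) {e p : ℝ} (he0 : 0 ≤ e) (hp0 : 0 ≤ p)
    (he : ν {w | e < |Y w - Z w|} ≤ ENNReal.ofReal p) :
    ‖∫ w, Complex.exp ((Y w : ℂ) * Complex.I) ∂ν - ∫ w, Complex.exp ((Z w : ℂ) * Complex.I) ∂ν‖ ≤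
      e + 2 * p := by
  have hi : ∀ Z : W → ℝ, Measurable Z → Integrable (fun w => Complex.exp ((Z w : ℂ) * Complex.I)) ν :=
    fun Z hZ => Integrable.of_bound (by fun_prop) 1
      (Eventually.of_forall fun w => by rw [Complex.norm_exp_ofReal_mul_I])
  rw [← integral_sub (hi Y hY) (hi Z hZ)]
  obtain ⟨E, hE⟩ : ∃ E : Set W, E = {w | e < |Y w - Z w|} := ⟨_, rfl⟩
  have mE : MeasurableSet E := by
    rw [hE]
    exact measurableSet_lt measurable_const (hY.sub hZ).abs
  have h1 : ∀ w, ENNReal.ofReal ‖Complex.exp ((Y w : ℂ) * Complex.I) -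
      Complex.exp ((Z w : ℂ) * Complex.I)‖ ≤ ENNReal.ofReal e +
        ENNReal.ofReal 2 * E.indicator (1 : W → ℝ≥0∞) w := by
    intro w
    by_cases hw : w ∈ E
    · rw [indicator_of_mem hw, Pi.one_apply, mul_one]
      refine le_trans (ENNReal.ofReal_le_ofReal ?_) le_add_self
      refine (norm_sub_le _ _).trans ?_
      rw [Complex.norm_exp_ofReal_mul_I, Complex.norm_exp_ofReal_mul_I]
      norm_num
    · refine le_trans (ENNReal.ofReal_le_ofReal ?_) le_self_add
      rw [hE, mem_ofPred_eq, not_lt] at hw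
      refine le_trans ?_ hw
      have e1 : Complex.exp ((Y w : ℂ) * Complex.I) - Complex.exp ((Z w : ℂ) * Complex.I) =
          Complex.exp ((Z w : ℂ) * Complex.I) *
            (Complex.exp (Complex.I * ((Y w - Z w : ℝ) : ℂ)) - 1) := by
        rw [mul_sub, mul_one, ← Complex.exp_add]
        congr 2
        push_cast
        ring
      rw [e1, norm_mul, Complex.norm_exp_ofReal_mul_I, one_mul]
      exact Real.norm_exp_I_mul_ofReal_sub_one_le
  refine (norm_integral_le_lintegral_norm _).trans (ENNReal.toReal_le_of_le_ofReal (by positivity) ?_)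
  refine (lintegral_mono h1).trans ?_
  rw [lintegral_add_left measurable_const, lintegral_const, measure_univ, mul_one,
    lintegral_const_mul' _ _ ENNReal.ofReal_ne_top, lintegral_indicator_one mE, hE]
  refine (add_le_add le_rfl (mul_le_mul' le_rfl he)).trans (le_of_eq ?_)
  rw [← ENNReal.ofReal_mul (by norm_num), ← ENNReal.ofReal_add he0 (by positivity)]

/-- modulus of continuity, bounded increments -/
theorem modu_bdd {ξ : X → X → ℝ} {M : ℝ} {x₀ : X} (hM : ∀ x y, |ξ x y| ≤ M)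
    (h0 : ∀ x, ∫ y, ξ x y ∂(q x) = 0) {s : ℝ}
    (hQ : AV q (fun x => ∫ y, ξ x y ^ 2 ∂(q x)) s x₀) {ε η : ℝ}
    (hε : 0 < ε) (hη : 0 < η) :
    ∃ δ : ℝ, 0 < δ ∧ ∀ᶠ n : ℕ in atTop, P q x₀ {w | ∃ j k, j ≤ k ∧ k ≤ n ∧
      ((k : ℝ) - j) ≤ δ * n ∧ ε * √n < |S ξ j w - S ξ k w|} ≤
      ENNReal.ofReal η := by
  obtain ⟨m, hm1, hm⟩ := QIP.exists_m ε (|s| + 1) (η / 2) hε (by positivity)
  set b : ℕ := m ^ 2 with hb
  have hb1 : 1 ≤ b := Nat.one_le_pow _ _ hm1
  have hb0 : (0 : ℝ) < b := by exact_mod_cast hb1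
  have hm0 : (0 : ℝ) < m := by exact_mod_cast hm1
  set g : X → ℝ := fun x => ∫ y, ξ x y ^ 2 ∂(q x) with hg
  have hM0 : 0 ≤ M := (abs_nonneg _).trans (hM x₀ x₀)
  -- averages over the blocks
  have hav : ∀ᶠ n : ℕ in atTop, ∀ i ∈ Finset.range (b + 1), ∫⁻ w, ENNReal.ofReal
      |(∑ k ∈ Finset.range ⌊(i : ℝ) / b * n⌋₊, g (w k)) / n - (i : ℝ) / b * s|
        ∂(P q x₀) ≤ ENNReal.ofReal (η / (4 * b ^ 2)) := by
    rw [Finset.eventually_all]
    intro i hi
    have h1 := hQ.time q (t := (i : ℝ) / b) (by positivity)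
    exact (tendsto_order.1 h1).2 _ (ENNReal.ofReal_pos.2 (by positivity)) |>.mono fun n hn => hn.le
  refine ⟨1 / (2 * b), by positivity, ?_⟩
  have hlarge : ∀ᶠ n : ℕ in atTop, m * M ≤ √(n : ℝ) :=
    (Real.tendsto_sqrt_atTop.comp tendsto_natCast_atTop_atTop).eventually_ge_atTop _
  filter_upwards [hav, hlarge, eventually_ge_atTop 1, eventually_ge_atTop (2 * b)] with n hn1 hn2 hn3 hn4
  have hn0 : (0 : ℝ) < n := by exact_mod_cast hn3
  have hsn : 0 < √(n : ℝ) := Real.sqrt_pos.2 hn0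
  set T : ℕ → ℕ := fun i => ⌊(i : ℝ) / b * n⌋₊ with hT
  have hTb : T b = n := by
    simp only [hT]
    rw [div_self hb0.ne', one_mul, Nat.floor_natCast]
  have hT0 : T 0 = 0 := by simp [hT]
  set E : ℕ → Set (ℕ → X) := fun i => {w | ∃ k, T i ≤ k ∧ k ≤ T (i + 1) ∧
    ε / 3 * √n < |S ξ k w - S ξ (T i) w|} with hE
  have hsub : {w : ℕ → X | ∃ j k, j ≤ k ∧ k ≤ n ∧
      ((k : ℝ) - j) ≤ 1 / (2 * b) * n ∧ ε * √n < |S ξ j w - S ξ k w|} ⊆
      ⋃ i ∈ Finset.range b, E i := by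
    rintro w ⟨j, k, hjk, hkn, hd, hw⟩
    by_contra hcon
    simp only [mem_iUnion, not_exists, Finset.mem_range, hE, mem_ofPred_eq, not_and, not_lt] at hcon
    have := QIP.blocks (f := fun k => S ξ k w) (T := T) (b := b) (n := n)
      (r := ε / 3 * √n) (by positivity) hT0 hTb (fun i hi l h1 h2 => hcon i hi l h1 h2) hjk hkn ?_
    · have e1 : 3 * (ε / 3 * √(n : ℝ)) = ε * √n := by ring
      rw [e1] at this
      exact absurd hw (not_lt.2 this)
    · intro i hi
      have h1 : (T i : ℝ) ≤ (i : ℝ) / b * n := Nat.floor_le (by positivity)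
      have h2 : ((i + 1 : ℕ) : ℝ) / b * n < T (i + 1) + 1 := Nat.lt_floor_add_one _
      have h3 : (k : ℝ) - j < T (i + 1) - T i := by
        have h4 : ((i + 1 : ℕ) : ℝ) / b * n = (i : ℝ) / b * n + n / b := by
          push_cast; field_simp
        have h5 : (2 * b : ℝ) ≤ n := by exact_mod_cast hn4
        have h6 : 1 / (2 * (b : ℝ)) * n ≤ n / b - 1 := by
          rw [div_mul_eq_mul_div, one_mul, div_le_iff₀ (by positivity)]
          have : (n / (b : ℝ) - 1) * (2 * b) = 2 * n - 2 * b := by field_simp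
          rw [this]
          linarith
        linarith
      have h7 : T i ≤ T (i + 1) := by
        refine Nat.floor_le_floor ?_
        gcongr
        simp
      have h8 : ((k - j : ℕ) : ℝ) < ((T (i + 1) - T i : ℕ) : ℝ) := by
        rw [Nat.cast_sub hjk, Nat.cast_sub h7]
        exact h3
      exact_mod_cast h8.le
  refine (measure_mono hsub).trans ((measure_biUnion_finset_le _ _).trans ?_)
  set v : ℝ := n * (|s| + 1) / b with hv
  have hblock : ∀ i ∈ Finset.range b, P q x₀ (E i) ≤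
      ENNReal.ofReal ((2 * Real.exp (-(m * (ε / 3)) + (|s| + 1))) + η / (2 * b)) := by
    intro i hi
    have hi' := Finset.mem_range.1 hi
    have h1 := QIP.block_bound q hM h0 (l := m / √n) (by positivity)
      (by rw [div_mul_eq_mul_div, div_le_one hsn]; exact hn2) (ε / 3 * √n) v (T i) (T (i + 1)) x₀
    refine h1.trans ?_
    rw [ENNReal.ofReal_add (by positivity) (by positivity)]
    refine add_le_add ?_ ?_
    · have e1 : -(m / √(n : ℝ) * (ε / 3 * √n)) + (m / √(n : ℝ)) ^ 2 * v = -(m * (ε / 3)) + (|s| + 1) := by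
        rw [div_pow, Real.sq_sqrt hn0.le, hv, hb]
        push_cast
        field_simp
      rw [e1, ENNReal.ofReal_mul (by norm_num)]
      simp
    · obtain ⟨F, hFdef⟩ : ∃ F : Set (ℕ → X), F = {w : ℕ → X | v < ∑ j ∈ Finset.Ico (T i)
          (T (i + 1)), g (w j)} := ⟨_, rfl⟩
      have key : ∀ w : ℕ → X, F.indicator (1 : (ℕ → X) → ℝ≥0∞) w ≤ ENNReal.ofReal b *
          (ENNReal.ofReal |(∑ k ∈ Finset.range (T (i + 1)), g (w k)) / n -
            ((i + 1 : ℕ) : ℝ) / b * s| +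
          ENNReal.ofReal |(∑ k ∈ Finset.range (T i), g (w k)) / n - (i : ℝ) / b * s|) := by
        intro w
        by_cases hwF : w ∈ F
        · have hw : v < ∑ j ∈ Finset.Ico (T i) (T (i + 1)), g (w j) := by
            rw [hFdef] at hwF; exact hwF
          rw [indicator_of_mem hwF]
          rw [← ENNReal.ofReal_add (abs_nonneg _) (abs_nonneg _), ← ENNReal.ofReal_mul hb0.le,
            Pi.one_apply, ← ENNReal.ofReal_one]
          refine ENNReal.ofReal_le_ofReal ?_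
          have h7 : T i ≤ T (i + 1) := by
            refine Nat.floor_le_floor ?_
            gcongr
            simp
          have e2 := Finset.sum_range_add_sum_Ico (fun j => g (w j)) h7
          set a1 := ∑ k ∈ Finset.range (T (i + 1)), g (w k) with ha1
          set a0 := ∑ k ∈ Finset.range (T i), g (w k) with ha0
          have h8 : v < a1 - a0 := by linarith
          have h9 : (a1 - a0) / n - s / b = (a1 / n - ((i + 1 : ℕ) : ℝ) / b * s) - (a0 / n - (i : ℝ) / b * s) := by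
            push_cast; field_simp; ring
          have h10 : (|s| + 1) / b < (a1 - a0) / n := by
            rw [lt_div_iff₀ hn0]
            calc (|s| + 1) / b * n = v := by rw [hv]; ring
              _ < _ := h8
          have h11 : 1 / (b : ℝ) ≤ (a1 - a0) / n - s / b := by
            have : s / b ≤ |s| / b := div_le_div_of_nonneg_right (le_abs_self s) hb0.le
            rw [add_div] at h10
            linarith
          have h12 : 1 / (b : ℝ) ≤ |a1 / n - ((i + 1 : ℕ) : ℝ) / b * s| + |a0 / n - (i : ℝ) / b * s| := by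
            rw [h9] at h11
            exact h11.trans ((le_abs_self _).trans (abs_sub _ _))
          rw [div_le_iff₀ hb0, mul_comm] at h12
          exact h12
        · rw [indicator_of_notMem hwF]
          exact zero_le
      have hmE : MeasurableSet F := by
        rw [hFdef]
        refine measurableSet_lt measurable_const (Finset.measurable_sum _ fun j _ => ?_)
        exact (measurable_of_countable g).comp (measurable_pi_apply j)
      rw [← hFdef, ← lintegral_indicator_one hmE]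
      refine (lintegral_mono key).trans ?_
      rw [lintegral_const_mul' _ _ ENNReal.ofReal_ne_top, lintegral_add_left]
      · refine (mul_le_mul' le_rfl (add_le_add (hn1 (i + 1) (by simp; omega)) (hn1 i (by simp; omega)))).trans ?_
        rw [← ENNReal.ofReal_add (by positivity) (by positivity), ← ENNReal.ofReal_mul hb0.le]
        refine ENNReal.ofReal_le_ofReal (le_of_eq ?_)
        field_simp
        ring
      · exact (((meas_sum g _).div_const _).sub_const _).abs.ennreal_ofReal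
  refine (Finset.sum_le_sum hblock).trans ?_
  rw [Finset.sum_const, Finset.card_range, nsmul_eq_mul]
  have e3 : (b : ℝ≥0∞) = ENNReal.ofReal b := by simp
  rw [e3, ← ENNReal.ofReal_mul hb0.le]
  refine ENNReal.ofReal_le_ofReal ?_
  have e4 : (b : ℝ) = (m : ℝ) ^ 2 := by rw [hb]; push_cast; ring
  rw [mul_add]
  have e5 : (b : ℝ) * (η / (2 * b)) = η / 2 := by field_simp
  rw [e5, e4]
  linarith

section main

variable {q}
variable {x₀ : X} {ξ : X → X → ℝ} {cL : ℕ → ℝ} {σ2 : ℝ}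

theorem var_bdd (L : ℕ) (ξ : X → X → ℝ) (x : X) : |∫ y, ct q L ξ x y ^ 2 ∂(q x)| ≤ (2 * L) ^ 2 := by
  have h1 := norm_integral_le_of_norm_le_const (μ := q x) (f := fun z => ct q L ξ x z ^ 2)
    (C := (2 * L : ℝ) ^ 2) (Eventually.of_forall fun z => by
      rw [Real.norm_eq_abs, abs_pow]
      exact pow_le_pow_left₀ (abs_nonneg _) (ct_bdd q L ξ x z) 2)
  simpa using h1

theorem av_ct (hA : ∀ (L : ℕ) (δ : ℝ), 0 < δ → Tendsto (fun n : ℕ => P q x₀ {w | δ * n <
    |∑ s ∈ Finset.range n, (∫ y, (tru L (ξ (w s) y) - ∫ z, tru L (ξ (w s) z) ∂(q (w s))) ^ 2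
      ∂(q (w s))) - cL L * n|}) atTop (𝓝 0)) (L : ℕ) :
    AV q (fun x => ∫ y, ct q L ξ x y ^ 2 ∂(q x)) (cL L) x₀ :=
  AV_of q (var_bdd L ξ) fun δ hδ => hA L δ hδ

theorem fdd (hV : ∀ x, V q ξ x ≠ ∞) (h0 : ∀ x, bm q ξ x = 0) (hc : Tendsto cL atTop (𝓝 σ2))
    (hA : ∀ (L : ℕ) (δ : ℝ), 0 < δ → Tendsto (fun n : ℕ => P q x₀ {w | δ * n <
      |∑ s ∈ Finset.range n, (∫ y, (tru L (ξ (w s) y) - ∫ z, tru L (ξ (w s) z) ∂(q (w s))) ^ 2
        ∂(q (w s))) - cL L * n|}) atTop (𝓝 0))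
    (hR : ∀ δ η' : ℝ, 0 < δ → 0 < η' → ∃ L₀ : ℕ, ∀ L : ℕ, L₀ ≤ L → ∀ᶠ n : ℕ in atTop,
      P q x₀ {w | δ * n < ∑ s ∈ Finset.range n, ∫ y, (ξ (w s) y - tru L (ξ (w s) y)) ^ 2
        ∂(q (w s))} ≤ ENNReal.ofReal η')
    (k : ℕ) (t : Fin k → ℝ) (u : Fin k → ℝ) (ht : ∀ j, 0 ≤ t j) :
    Tendsto (fun n : ℕ => ∫ w, Complex.exp (((∑ j, u j * (S ξ ⌊t j * n⌋₊ w / √n) : ℝ) : ℂ) *
      Complex.I) ∂(P q x₀)) atTop
      (𝓝 ((Real.exp (-((∑ j, ∑ l, min (t j) (t l) * (u j * σ2 * u l)) / 2)) : ℝ) : ℂ)) := by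
  rw [Metric.tendsto_atTop]
  intro ε hε
  set U : ℝ := ∑ j, |u j| with hU
  have hU0 : 0 ≤ U := Finset.sum_nonneg fun _ _ => abs_nonneg _
  set e : ℝ := ε / (8 * (U + 1)) with he
  have he0 : 0 < e := by positivity
  set T : ℝ := ∑ j, t j with hT
  have hT0 : 0 ≤ T := Finset.sum_nonneg fun j _ => ht j
  have htT : ∀ j, t j ≤ T := fun j => Finset.single_le_sum (fun i _ => ht i) (Finset.mem_univ j)
  obtain ⟨K', hK1, hK2⟩ : ∃ K' : ℕ, 1 ≤ K' ∧ T ≤ K' :=
    ⟨⌈T⌉₊ + 1, by omega, (Nat.le_ceil T).trans (by push_cast; linarith)⟩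
  obtain ⟨L0, hL0⟩ := rest_small q x₀ hV hR hK1 he0 (p := ε / 16) (by positivity)
  have hl1 : Tendsto (fun L : ℕ => ((Real.exp (-((∑ j, ∑ l, min (t j) (t l) *
      (u j * cL L * u l)) / 2)) : ℝ) : ℂ)) atTop
      (𝓝 ((Real.exp (-((∑ j, ∑ l, min (t j) (t l) * (u j * σ2 * u l)) / 2)) : ℝ) : ℂ)) := by
    refine (Complex.continuous_ofReal.tendsto _).comp ((Real.continuous_exp.tendsto _).comp
      ((Tendsto.div_const ?_ 2).neg))
    refine tendsto_finsetSum _ fun j _ => tendsto_finsetSum _ fun l _ => Tendsto.const_mul _ ?_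
    exact (hc.const_mul _).mul_const _
  rw [Metric.tendsto_atTop] at hl1
  obtain ⟨L1, hL1⟩ := hl1 (ε / 4) (by positivity)
  set L : ℕ := max L0 L1 with hLdef
  have hL1' := hL1 L (le_max_right _ _)
  have hb := fdd_bdd q (ct_bdd q L ξ) (ct_mean q L ξ) (av_ct hA L) k t u ht
  rw [Metric.tendsto_atTop] at hb
  obtain ⟨n1, hn1⟩ := hb (ε / 4) (by positivity)
  obtain ⟨n2, hn2⟩ := eventually_atTop.1 (hL0 L (le_max_left _ _))
  refine ⟨max (max n1 n2) 1, fun n hn => ?_⟩
  have hn1' := hn1 n (((le_max_left _ _).trans (le_max_left _ _)).trans hn)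
  have hn2' := hn2 n (((le_max_right _ _).trans (le_max_left _ _)).trans hn)
  have hn3 : 1 ≤ n := (le_max_right _ _).trans hn
  have hnp : (0 : ℝ) < n := by exact_mod_cast hn3
  have hsn : 0 < √(n : ℝ) := Real.sqrt_pos.2 hnp
  rw [dist_eq_norm] at hL1' hn1' ⊢
  set Y : (ℕ → X) → ℝ := fun w => ∑ j, u j * (S ξ ⌊t j * n⌋₊ w / √n) with hY
  set Z : (ℕ → X) → ℝ := fun w => ∑ j, u j * (S (ct q L ξ) ⌊t j * n⌋₊ w / √n) with hZ
  have mS : ∀ (ξ : X → X → ℝ) (k : ℕ), Measurable (S ξ k) := fun ξ k =>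
    (QIP.dep_S ξ (le_refl k)).measurable
  have hYm : Measurable Y := Finset.measurable_sum _ fun j _ => ((mS _ _).div_const _).const_mul _
  have hZm : Measurable Z := Finset.measurable_sum _ fun j _ => ((mS _ _).div_const _).const_mul _
  have hYZ : P q x₀ {w | U * e < |Y w - Z w|} ≤ ENNReal.ofReal (ε / 16) := by
    refine (measure_mono fun w hw => ?_).trans hn2'
    simp only [mem_ofPred_eq] at hw ⊢
    by_contra hcon
    push Not at hcon
    refine absurd hw (not_lt.2 ?_)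
    have e1 : Y w - Z w = ∑ j, u j * (S (cen q (cr L ξ)) ⌊t j * n⌋₊ w / √n) := by
      simp only [hY, hZ]
      rw [← Finset.sum_sub_distrib]
      refine Finset.sum_congr rfl fun j _ => ?_
      rw [S_split q hV h0 L]
      ring
    rw [e1, hU, Finset.sum_mul]
    refine (Finset.abs_sum_le_sum_abs _ _).trans (Finset.sum_le_sum fun j _ => ?_)
    rw [abs_mul]
    refine mul_le_mul_of_nonneg_left ?_ (abs_nonneg _)
    rw [abs_div, abs_of_pos hsn, div_le_iff₀ hsn]
    refine hcon _ ?_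
    have h1 : ((⌊t j * n⌋₊ : ℕ) : ℝ) ≤ ((K' * n : ℕ) : ℝ) := by
      refine (Nat.floor_le (mul_nonneg (ht j) hnp.le)).trans ?_
      push_cast
      exact mul_le_mul_of_nonneg_right ((htT j).trans hK2) hnp.le
    exact_mod_cast h1
  have h3 := exp_diff hYm hZm (by positivity) (by positivity) hYZ
  have h4 : U * e + 2 * (ε / 16) ≤ ε / 4 := by
    have : U * e ≤ ε / 8 := by
      rw [he, mul_div_assoc', div_le_div_iff₀ (by positivity) (by norm_num)]
      nlinarith
    linarith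
  calc _ = ‖(∫ w, Complex.exp ((Y w : ℂ) * Complex.I) ∂(P q x₀) -
        ∫ w, Complex.exp ((Z w : ℂ) * Complex.I) ∂(P q x₀)) +
        (∫ w, Complex.exp ((Z w : ℂ) * Complex.I) ∂(P q x₀) -
        ((Real.exp (-((∑ j, ∑ l, min (t j) (t l) * (u j * cL L * u l)) / 2)) : ℝ) : ℂ)) +
        (((Real.exp (-((∑ j, ∑ l, min (t j) (t l) * (u j * cL L * u l)) / 2)) : ℝ) : ℂ) -
      ((Real.exp (-((∑ j, ∑ l, min (t j) (t l) * (u j * σ2 * u l)) / 2)) : ℝ) : ℂ))‖ := by
        congr 1; ring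
    _ ≤ _ := norm_add₃_le
    _ < ε := by linarith

theorem modu (hV : ∀ x, V q ξ x ≠ ∞) (h0 : ∀ x, bm q ξ x = 0)
    (hA : ∀ (L : ℕ) (δ : ℝ), 0 < δ → Tendsto (fun n : ℕ => P q x₀ {w | δ * n <
      |∑ s ∈ Finset.range n, (∫ y, (tru L (ξ (w s) y) - ∫ z, tru L (ξ (w s) z) ∂(q (w s))) ^ 2
        ∂(q (w s))) - cL L * n|}) atTop (𝓝 0))
    (hR : ∀ δ η' : ℝ, 0 < δ → 0 < η' → ∃ L₀ : ℕ, ∀ L : ℕ, L₀ ≤ L → ∀ᶠ n : ℕ in atTop,
      P q x₀ {w | δ * n < ∑ s ∈ Finset.range n, ∫ y, (ξ (w s) y - tru L (ξ (w s) y)) ^ 2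
        ∂(q (w s))} ≤ ENNReal.ofReal η')
    {ε η : ℝ} (hε : 0 < ε) (hη : 0 < η) :
    ∃ δ : ℝ, 0 < δ ∧ ∀ᶠ n : ℕ in atTop, P q x₀ {w | ∃ j k, j ≤ k ∧ k ≤ n ∧
      ((k : ℝ) - j) ≤ δ * n ∧ ε * √n < |S ξ j w - S ξ k w|} ≤ ENNReal.ofReal η := by
  obtain ⟨L, hL⟩ := rest_small q x₀ hV hR le_rfl (e := ε / 4) (p := η / 2) (by positivity)
    (by positivity)
  have hL := hL L le_rfl
  obtain ⟨δ, hδ, hev⟩ := modu_bdd q (ct_bdd q L ξ) (ct_mean q L ξ) (av_ct hA L) (ε := ε / 2)
    (η := η / 2) (by positivity) (by positivity)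
  refine ⟨δ, hδ, ?_⟩
  filter_upwards [hev, hL] with n hn1 hn2
  have hsub : {w : ℕ → X | ∃ j k, j ≤ k ∧ k ≤ n ∧
      ((k : ℝ) - j) ≤ δ * n ∧ ε * √n < |S ξ j w - S ξ k w|} ⊆
      {w | ∃ j k, j ≤ k ∧ k ≤ n ∧ ((k : ℝ) - j) ≤ δ * n ∧ ε / 2 * √n <
        |S (ct q L ξ) j w - S (ct q L ξ) k w|} ∪
      {w | ∃ k ≤ 1 * n, ε / 4 * √n < |S (cen q (cr L ξ)) k w|} := by
    rintro w ⟨j, k, hjk, hkn, hd, hw⟩
    by_contra hcon
    simp only [mem_union, mem_ofPred_eq, not_or, not_exists, not_and, not_lt, one_mul] at hcon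
    obtain ⟨h1, h2⟩ := hcon
    have a1 := h1 j k hjk hkn hd
    have a2 := h2 j (hjk.trans hkn)
    have a3 := h2 k hkn
    rw [S_split q hV h0 L j, S_split q hV h0 L k] at hw
    set s1 := S (ct q L ξ) j w
    set s2 := S (ct q L ξ) k w
    set r1 := S (cen q (cr L ξ)) j w
    set r2 := S (cen q (cr L ξ)) k w
    have a4 : |s1 + r1 - (s2 + r2)| ≤ |s1 - s2| + (|r1| + |r2|) := by
      have : s1 + r1 - (s2 + r2) = (s1 - s2) + (r1 - r2) := by ring
      rw [this]
      exact (abs_add_le _ _).trans (add_le_add le_rfl (abs_sub _ _))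
    have : ε / 2 * √(n : ℝ) + (ε / 4 * √n + ε / 4 * √n) = ε * √n := by ring
    linarith
  refine (measure_mono hsub).trans ((measure_union_le _ _).trans ?_)
  refine (add_le_add hn1 hn2).trans (le_of_eq ?_)
  rw [← ENNReal.ofReal_add (by positivity) (by positivity), add_halves]

end main

end Pool.Agent.H183.GWF

namespace Pool.Agent.H183

open Pool.Agent.H979.QIP (P K V bm S)
open Pool.Agent.H979.GW (tru)

/-- **the functional limit theorem** for additive functionals of Markov chains -/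
theorem gw_fclt : Pool.Agent.H979.GW.S_FCLT := by
  intro X _ _ _ q _ x₀ ξ cL σ2 hV h0 hσ hc hA hR
  refine ⟨fun k t u ht => ?_, fun T ε η' hT hε hη => ?_⟩
  · have h1 := GWF.fdd hV h0 hc hA hR k t u ht
    have e1 : Complex.exp (-((∑ j, ∑ l, min (t j) (t l) * (u j * σ2 * u l) : ℝ) : ℂ) / 2) =
        ((Real.exp (-((∑ j, ∑ l, min (t j) (t l) * (u j * σ2 * u l)) / 2)) : ℝ) : ℂ) := by
      rw [Complex.ofReal_exp]
      congr 1
      push_cast
      ring
    rw [e1]
    refine h1.congr fun n => ?_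
    refine integral_congr_ae (Eventually.of_forall fun w => ?_)
    simp only
    rw [mul_comm]
  · obtain ⟨K', hK1, hK2⟩ : ∃ K' : ℕ, 1 ≤ K' ∧ T ≤ K' :=
      ⟨⌈T⌉₊ + 1, by omega, (Nat.le_ceil T).trans (by push_cast; linarith)⟩
    have hK0 : (0 : ℝ) < K' := by exact_mod_cast hK1
    have hsK : 0 < √(K' : ℝ) := Real.sqrt_pos.2 hK0
    obtain ⟨δ, hδ, hev⟩ := GWF.modu hV h0 hA hR (ε := ε / √K') (η := η') (by positivity) hη
    refine ⟨δ, hδ, ?_⟩
    have hm : Tendsto (fun n : ℕ => K' * n) atTop atTop :=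
      tendsto_id.const_mul_atTop' (by omega)
    filter_upwards [hm.eventually hev] with n hn
    refine (measure_mono ?_).trans hn
    rintro w ⟨j, k, hj, hk, hjk, hw⟩
    have e1 : ε / √(K' : ℝ) * √((K' * n : ℕ) : ℝ) = ε * √n := by
      push_cast
      rw [Real.sqrt_mul hK0.le]
      field_simp
    have hle : ∀ i : ℕ, (i : ℝ) ≤ T * n → i ≤ K' * n := by
      intro i hi
      have h2 : (i : ℝ) ≤ ((K' * n : ℕ) : ℝ) := by
        push_cast
        exact hi.trans (mul_le_mul_of_nonneg_right hK2 (Nat.cast_nonneg _))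
      exact_mod_cast h2
    have hd : δ * (n : ℝ) ≤ δ * ((K' * n : ℕ) : ℝ) := by
      push_cast
      refine mul_le_mul_of_nonneg_left ?_ hδ.le
      have h1 : (1 : ℝ) ≤ K' := by exact_mod_cast hK1
      nlinarith [Nat.cast_nonneg (α := ℝ) n]
    rcases le_total j k with h | h
    · refine ⟨j, k, h, hle k hk, ?_, ?_⟩
      · have h1 := (abs_le.1 hjk).1
        linarith
      · rw [e1]
        exact hw
    · refine ⟨k, j, h, hle j hj, ?_, ?_⟩
      · have h1 := (abs_le.1 hjk).2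
        linarith
      · rw [e1, abs_sub_comm]
        exact hw

end Pool.Agent.H183
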