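import Pool.Agent.H676.So.Stm

set_option autoImplicit false

/-!
# Project WS (helper676), statement EE: signs of derivable characters
-/

namespace Pool.Agent.H183.WSEE

open Finset Pool.Agent.W893.PR Pool.Agent.H676.GI Pool.Agent.H676.GI.Blk Pool.Agent.H676.So

theorem zmod2_cases : ∀ a : ZMod 2, a = 0 ∨ a = 1 := by decide

theorem zmod2_add_self : ∀ a : ZMod 2, a + a = 0 := by decide

theorem sgn_zero : sgn 0 = 1 := if_pos rfl

theorem sgn_one : sgn 1 = -1 := if_neg one_ne_zero

theorem sgn_cases (a : ZMod 2) : sgn a = 1 ∨ sgn a = -1 := by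
  rcases zmod2_cases a with rfl | rfl
  · exact Or.inl sgn_zero
  · exact Or.inr sgn_one

theorem sgn_ne (a : ZMod 2) : sgn a ≠ 0 := by
  rcases sgn_cases a with h | h <;> rw [h] <;> norm_num

theorem sgn_add (a b : ZMod 2) : sgn (a + b) = sgn a * sgn b := by
  rcases zmod2_cases a with rfl | rfl <;> rcases zmod2_cases b with rfl | rfl
  · rw [add_zero, sgn_zero, one_mul]
  · rw [zero_add, sgn_zero, one_mul]
  · rw [add_zero, sgn_zero, mul_one]
  · rw [zmod2_add_self, sgn_zero, sgn_one]; norm_num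

theorem vec_add_self {F : Type} {d : ℕ} (γ : F → F2 d) : γ + γ = 0 := by
  funext x i
  exact zmod2_add_self _

section main

variable {F : Type} [Fintype F] [DecidableEq F] {M d : ℕ} {Q : Sys F M d}

/-- `c` derives `γ` -/
def Der (Q : Sys F M d) (r : ℕ) (γ : F → F2 d) (c : Fin M → ZMod 2) : Prop :=
  Q.coef c = γ ∧ (Q.tch c).card ≤ r

theorem der_tch {κ r : ℕ} (hQ : Q.Nice κ r) {γ : F → F2 d} {c : Fin M → ZMod 2}
    (h : Der Q r γ c) : (Q.tch c).card ≤ 2 * (spp γ).card := by
  have h1 := hQ.boundary c h.2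
  rw [h.1] at h1
  exact h1

theorem der_add {κ r k : ℕ} (hQ : Q.Nice κ r) (hk : 1 ≤ k) (hr : 16 * k ≤ r) {γ γ' : F → F2 d}
    {c c' : Fin M → ZMod 2} (h : Der Q r γ c) (h' : Der Q r γ' c')
    (hγ : (spp γ).card ≤ 2 * k + 2) (hγ' : (spp γ').card ≤ 2 * k + 2) :
    Der Q r (γ + γ') (c + c') := by
  refine ⟨?_, ?_⟩
  · funext x
    rw [coef_add, h.1, h'.1, Pi.add_apply]
  · have h1 := der_tch hQ h
    have h2 := der_tch hQ h'
    have h3 := (Finset.card_le_card (tch_add (Q := Q) c c')).trans (Finset.card_union_le _ _)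
    omega

theorem der_zero (r : ℕ) : Der Q r 0 0 := by
  refine ⟨?_, ?_⟩
  · funext x
    rw [coef_zero, Pi.zero_apply]
  · rw [tch_zero]; simp

theorem der_unique {κ r k : ℕ} (hQ : Q.Nice κ r) (hk : 1 ≤ k) (hr : 16 * k ≤ r) {γ : F → F2 d}
    {c c' : Fin M → ZMod 2} (h : Der Q r γ c) (h' : Der Q r γ c')
    (hγ : (spp γ).card ≤ 2 * k + 2) : c = c' := by
  have h1 := der_add hQ hk hr h h' hγ hγ
  rw [vec_add_self] at h1
  have h2 := der_tch hQ h1
  have h3 : (spp (0 : F → F2 d)).card = 0 := by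
    rw [Finset.card_eq_zero]
    unfold spp
    rw [Finset.filter_eq_empty_iff]
    intro x _ h
    exact h rfl
  rw [h3, mul_zero, Nat.le_zero, Finset.card_eq_zero] at h2
  funext i
  have h4 : (c + c') i = 0 := by
    by_contra hne
    have h5 : Q.ends i 0 ∈ Q.tch (c + c') := by
      unfold Sys.tch
      rw [mem_filter]
      exact ⟨mem_univ _, i, 0, hne, rfl⟩
    rw [h2] at h5
    exact absurd h5 (Finset.notMem_empty _)
  rw [Pi.add_apply] at h4
  calc c i = c i + (c' i + c' i) := by rw [zmod2_add_self, add_zero]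
    _ = (c i + c' i) + c' i := (add_assoc _ _ _).symm
    _ = c' i := by rw [h4, zero_add]

open Classical in
/-- the sign of a derivable character -/
noncomputable def ee (Q : Sys F M d) (r : ℕ) (b : Fin M → ZMod 2) (γ : F → F2 d) : ℝ :=
  if h : ∃ c, Der Q r γ c then sgn (∑ i, h.choose i * b i) else 0

theorem ee_of {κ r k : ℕ} (hQ : Q.Nice κ r) (hk : 1 ≤ k) (hr : 16 * k ≤ r)
    (b : Fin M → ZMod 2) {γ : F → F2 d} {c : Fin M → ZMod 2} (h : Der Q r γ c)
    (hγ : (spp γ).card ≤ 2 * k + 2) : ee Q r b γ = sgn (∑ i, c i * b i) := by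
  have h1 : ∃ c, Der Q r γ c := ⟨c, h⟩
  unfold ee
  rw [dif_pos h1, der_unique hQ hk hr h1.choose_spec h hγ]

theorem ee_not {r : ℕ} (b : Fin M → ZMod 2) {γ : F → F2 d} (h : ¬ ∃ c, Der Q r γ c) :
    ee Q r b γ = 0 := by
  unfold ee
  rw [dif_neg h]

theorem tch_single (i : Fin M) : (Q.tch (Pi.single i 1)).card ≤ 2 := by
  have h2 : Q.tch (Pi.single i 1) ⊆ univ.image (Q.ends i) := by
    intro x hx
    unfold Sys.tch at hx
    rw [mem_filter] at hx
    obtain ⟨_, e', s, h3, h4⟩ := hx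
    have h5 : e' = i := by
      by_contra hcon
      exact h3 (Pi.single_eq_of_ne hcon _)
    subst h5
    exact mem_image.2 ⟨s, mem_univ _, h4⟩
  refine (Finset.card_le_card h2).trans (Finset.card_image_le.trans ?_)
  simp

theorem spp_coef (c : Fin M → ZMod 2) : spp (Q.coef c) ⊆ Q.tch c := by
  intro x hx
  unfold spp at hx
  rw [mem_filter] at hx
  by_contra hcon
  apply hx.2
  unfold Sys.coef
  refine Finset.sum_eq_zero fun p _ => ?_
  split_ifs with h3
  · by_cases h4 : c p.1 = 0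
    · rw [h4, zero_smul]
    · exfalso
      apply hcon
      unfold Sys.tch
      rw [mem_filter]
      exact ⟨mem_univ _, p.1, p.2, h4, h3⟩
  · rfl

end main

/-- **S_EE** -/
theorem t_EE : Pool.Agent.H676.So.S_EE := by
  intro F _ _ M d Q κ r k b hQ hk hr
  have hspp0 : (spp (0 : F → F2 d)).card ≤ 2 * k + 2 := by
    have h3 : (spp (0 : F → F2 d)).card = 0 := by
      rw [Finset.card_eq_zero]
      unfold spp
      rw [Finset.filter_eq_empty_iff]
      intro x _ h
      exact h rfl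
    omega
  refine ⟨ee Q r b, ?_, ?_, ?_, ?_⟩
  · rw [ee_of hQ hk hr b (der_zero r) hspp0]
    have : ∑ i : Fin M, (0 : Fin M → ZMod 2) i * b i = 0 :=
      Finset.sum_eq_zero fun i _ => by rw [Pi.zero_apply, zero_mul]
    rw [this, sgn_zero]
  · intro γ
    by_cases h : ∃ c, Der Q r γ c
    · right
      unfold ee
      rw [dif_pos h]
      exact sgn_cases _
    · exact Or.inl (ee_not b h)
  · intro γ γ' hγ hγ' hs he
    have h : ∃ c, Der Q r γ c := by
      by_contra h
      exact he (ee_not b h)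
    obtain ⟨c, hc⟩ := h
    by_cases h' : ∃ c', Der Q r γ' c'
    · obtain ⟨c', hc'⟩ := h'
      rw [ee_of hQ hk hr b (der_add hQ hk hr hc hc' hγ hγ') hs, ee_of hQ hk hr b hc hγ,
        ee_of hQ hk hr b hc' hγ', ← sgn_add, ← Finset.sum_add_distrib]
      congr 1
      exact Finset.sum_congr rfl fun i _ => by rw [Pi.add_apply, add_mul]
    · have h2 : ¬ ∃ c', Der Q r (γ + γ') c' := by
        rintro ⟨c', hc'⟩
        apply h'
        refine ⟨c + c', ?_⟩
        have h3 := der_add hQ hk hr hc hc' hγ hs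
        rwa [← add_assoc, vec_add_self, zero_add] at h3
      rw [ee_not b h2, ee_not b h', mul_zero]
  · intro i
    have h1 : Der Q r (Q.coef (Pi.single i 1)) (Pi.single i 1) := by
      refine ⟨rfl, (tch_single i).trans ?_⟩
      omega
    have h2 : (spp (Q.coef (Pi.single i 1))).card ≤ 2 * k + 2 := by
      have h3 := (Finset.card_le_card (spp_coef (Q := Q) (Pi.single i 1))).trans (tch_single i)
      omega
    rw [ee_of hQ hk hr b h1 h2]
    congr 1
    rw [Finset.sum_eq_single i]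
    · rw [Pi.single_eq_same, one_mul]
    · intro j _ hj
      rw [Pi.single_eq_of_ne hj, zero_mul]
    · intro h
      exact absurd (mem_univ _) h

end Pool.Agent.H183.WSEE
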